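import Pool.Agent.Lib_helper72.GCC.Struct

/-!
# GCC: for each trace there are finitely many classes
-/

set_option autoImplicit false

namespace Pool.Agent.Lib_helper72.GCC

open Matrix Pool.Agent.Lib_helper83.CS

set_option maxRecDepth 100000 in
theorem f2 : ∀ a b c d e f g h i : ZMod 2,
    a * (e * i - f * h) - b * (d * i - f * g) + c * (d * h - e * g) = 1 →
    (a - 1) * ((e - 1) * (i - 1) - f * h) - b * (d * (i - 1) - f * g) +
      c * (d * h - (e - 1) * g) = 1 →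
    ∀ x y z : ZMod 2,
      (∃ x1 y1 z1 x2 y2 z2 : ZMod 2, x1 = a * x + b * y + c * z ∧ y1 = d * x + e * y + f * z ∧
        z1 = g * x + h * y + i * z ∧ x2 = a * x1 + b * y1 + c * z1 ∧
        y2 = d * x1 + e * y1 + f * z1 ∧ z2 = g * x1 + h * y1 + i * z1 ∧
        x * (y1 * z2 - y2 * z1) - x1 * (y * z2 - y2 * z) + x2 * (y * z1 - y1 * z) = 0) →
      x = 0 ∧ y = 0 ∧ z = 0 := by
  have key : ∀ a b c d e f g h i : ZMod 2,
    a * (e * i - f * h) - b * (d * i - f * g) + c * (d * h - e * g) = 1 →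
    (a - 1) * ((e - 1) * (i - 1) - f * h) - b * (d * (i - 1) - f * g) +
      c * (d * h - (e - 1) * g) = 1 →
    ∀ x y z : ZMod 2,
      (fun x1 y1 z1 : ZMod 2 => (fun x2 y2 z2 : ZMod 2 =>
        x * (y1 * z2 - y2 * z1) - x1 * (y * z2 - y2 * z) + x2 * (y * z1 - y1 * z))
        (a * x1 + b * y1 + c * z1) (d * x1 + e * y1 + f * z1) (g * x1 + h * y1 + i * z1))
        (a * x + b * y + c * z) (d * x + e * y + f * z) (g * x + h * y + i * z) = 0 →
      x = 0 ∧ y = 0 ∧ z = 0 := by decide +kernel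
  intro a b c d e f g h i h1 h2 x y z h3
  obtain ⟨x1, y1, z1, x2, y2, z2, rfl, rfl, rfl, rfl, rfl, rfl, h4⟩ := h3
  exact key a b c d e f g h i h1 h2 x y z h4

/-- The companion matrix. -/
def Cn (n : ℤ) : M3 := !![0, 0, 1; 1, 0, -(n - 1); 0, 1, n]

theorem adj_intertwine {A T X : M3} (hT : T.det ≠ 0) (h : A * T = T * X) :
    T.adjugate * A = X * T.adjugate := by
  have h1 : T.adjugate * (A * T) * T.adjugate = T.adjugate * (T * X) * T.adjugate := by rw [h]
  have h2 : T.adjugate * (A * T) * T.adjugate = T.det • (T.adjugate * A) := by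
    rw [Matrix.mul_assoc, Matrix.mul_assoc, Matrix.mul_adjugate, Matrix.mul_smul, Matrix.mul_one,
      Matrix.mul_smul]
  have h3 : T.adjugate * (T * X) * T.adjugate = T.det • (X * T.adjugate) := by
    rw [← Matrix.mul_assoc, Matrix.adjugate_mul, Matrix.smul_mul, Matrix.one_mul,
      Matrix.smul_mul]
  rw [h2, h3] at h1
  ext i j
  have := congrFun (congrFun h1 i) j
  simp only [Matrix.smul_apply, smul_eq_mul] at this
  exact mul_left_cancel₀ hT this

theorem adj_det {T : M3} : T.adjugate.det = T.det ^ 2 := by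
  rw [Matrix.det_adjugate]; simp


theorem Kc_ne {A : M3} (hA : IsCS A) : ∀ (N : ℕ) (w : Fin 3 → ℤ),
    (w 0).natAbs + (w 1).natAbs + (w 2).natAbs ≤ N → w ≠ 0 → (Kc A w).det ≠ 0 := by
  intro N
  induction N with
  | zero =>
    intro w hw hw0
    exfalso
    apply hw0
    funext i
    fin_cases i <;> simp <;> omega
  | succ N ih =>
    intro w hw hw0 hdet
    have h1 := hA.1
    have h2 := hA.2
    rw [Matrix.det_fin_three] at h1 h2 hdet
    simp only [Matrix.sub_apply, Matrix.one_apply] at h2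
    simp only [Kc, Matrix.of_apply, Matrix.mulVec, dotProduct, Fin.sum_univ_three] at hdet
    simp at h2 hdet
    have c1 := congrArg (Int.cast : ℤ → ZMod 2) h1
    have c2 := congrArg (Int.cast : ℤ → ZMod 2) h2
    have c3 := congrArg (Int.cast : ℤ → ZMod 2) hdet
    push_cast at c1 c2 c3
    obtain ⟨z0, z1, z2⟩ := f2 (A 0 0 : ZMod 2) (A 0 1) (A 0 2) (A 1 0) (A 1 1) (A 1 2) (A 2 0)
      (A 2 1) (A 2 2) (by linear_combination c1) (by linear_combination c2) (w 0) (w 1) (w 2)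
      ⟨_, _, _, _, _, _, rfl, rfl, rfl, rfl, rfl, rfl, by linear_combination c3⟩
    rw [ZMod.intCast_zmod_eq_zero_iff_dvd] at z0 z1 z2
    obtain ⟨a, ha⟩ := z0
    obtain ⟨b, hb⟩ := z1
    obtain ⟨c, hc⟩ := z2
    push_cast at ha hb hc
    have hne : (![a, b, c] : Fin 3 → ℤ) ≠ 0 := by
      intro h
      apply hw0
      have e0 : a = 0 := by simpa using congrFun h 0
      have e1 : b = 0 := by simpa using congrFun h 1
      have e2 : c = 0 := by simpa using congrFun h 2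
      funext i
      fin_cases i
      · simpa [e0] using ha
      · simpa [e1] using hb
      · simpa [e2] using hc
    have hlt : (a.natAbs + b.natAbs + c.natAbs : ℕ) ≤ N := by
      have : ¬ (a = 0 ∧ b = 0 ∧ c = 0) := by
        rintro ⟨rfl, rfl, rfl⟩
        exact hne (by funext i; fin_cases i <;> rfl)
      omega
    refine ih ![a, b, c] (by simpa using hlt) hne ?_
    rw [Matrix.det_fin_three]
    simp only [Kc, Matrix.of_apply, Matrix.mulVec, dotProduct, Fin.sum_univ_three]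
    simp
    rw [ha, hb, hc] at hdet
    have : (8 : ℤ) ≠ 0 := by norm_num
    apply mul_left_cancel₀ this
    linear_combination hdet

theorem Kc_comp {A : M3} (hA : IsCS A) (w : Fin 3 → ℤ) : A * Kc A w = Kc A w * Cn A.trace := by
  have h3 : A *ᵥ (A *ᵥ (A *ᵥ w)) = A.trace • (A *ᵥ (A *ᵥ w)) - (A.trace - 1) • (A *ᵥ w) + w := by
    have := congrArg (fun M : M3 => M *ᵥ w) (cayley_CS hA)
    simp only [Matrix.add_mulVec, Matrix.sub_mulVec, Matrix.smul_mulVec, Matrix.one_mulVec,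
      ← Matrix.mulVec_mulVec] at this
    exact this
  have hcol : ∀ i, (Kc A w) i 0 = w i ∧ (Kc A w) i 1 = (A *ᵥ w) i ∧
      (Kc A w) i 2 = (A *ᵥ (A *ᵥ w)) i := fun i => ⟨rfl, rfl, rfl⟩
  have hA' : ∀ (y : Fin 3 → ℤ) i, A i 0 * y 0 + A i 1 * y 1 + A i 2 * y 2 = (A *ᵥ y) i := by
    intro y i
    simp [Matrix.mulVec, dotProduct, Fin.sum_univ_three]
  ext i j
  have h3i := congrFun h3 i
  simp only [Pi.add_apply, Pi.sub_apply, Pi.smul_apply, smul_eq_mul] at h3i
  fin_cases j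
  · show (A * Kc A w) i 0 = (Kc A w * Cn A.trace) i 0
    rw [Matrix.mul_apply, Matrix.mul_apply, Fin.sum_univ_three, Fin.sum_univ_three]
    rw [(hcol 0).1, (hcol 1).1, (hcol 2).1, hA' w i, (hcol i).2.1]
    simp [Cn]
  · show (A * Kc A w) i 1 = (Kc A w * Cn A.trace) i 1
    rw [Matrix.mul_apply, Matrix.mul_apply, Fin.sum_univ_three, Fin.sum_univ_three]
    rw [(hcol 0).2.1, (hcol 1).2.1, (hcol 2).2.1, hA' (A *ᵥ w) i, (hcol i).2.2]
    simp [Cn]
  · show (A * Kc A w) i 2 = (Kc A w * Cn A.trace) i 2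
    rw [Matrix.mul_apply, Matrix.mul_apply, Fin.sum_univ_three, Fin.sum_univ_three]
    rw [(hcol 0).2.2, (hcol 1).2.2, (hcol 2).2.2, hA' (A *ᵥ (A *ᵥ w)) i, h3i, (hcol i).1,
      (hcol i).2.1, (hcol i).2.2]
    simp [Cn]
    ring

theorem cube_between (a : ℕ) : ∃ m : ℕ, m ^ 3 ≤ a ∧ a < (m + 1) ^ 3 := by
  induction a with
  | zero => exact ⟨0, by norm_num, by norm_num⟩
  | succ a ih =>
    obtain ⟨m, h1, h2⟩ := ih
    by_cases h : a + 1 < (m + 1) ^ 3
    · exact ⟨m, by omega, h⟩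
    · refine ⟨m + 1, by omega, ?_⟩
      have : (m + 1) ^ 3 < (m + 1 + 1) ^ 3 := Nat.pow_lt_pow_left (by omega) (by norm_num)
      omega

theorem pigeon (M : M3) (hM : M.det ≠ 0) (m : ℕ) (hm : M.det.natAbs < (m + 1) ^ 3) :
    ∃ w : Fin 3 → ℤ, w ≠ 0 ∧ ∀ i, |(M *ᵥ w) i| ≤ m := by
  have hinj : Function.Injective M.mulVecLin := by
    intro x y h
    have h1 : M *ᵥ (x - y) = 0 := by
      rw [Matrix.mulVec_sub]
      simpa [sub_eq_zero] using h
    by_contra hne
    apply hM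
    exact Matrix.exists_mulVec_eq_zero_iff.mp ⟨x - y, sub_ne_zero.mpr hne, h1⟩
  set N : Submodule ℤ (Fin 3 → ℤ) := LinearMap.range M.mulVecLin with hN
  have hcard : Nat.card ((Fin 3 → ℤ) ⧸ N) = M.det.natAbs := by
    rw [← Submodule.natAbs_det_equiv N (LinearEquiv.ofInjective M.mulVecLin hinj)]
    congr 1
    have : N.subtype ∘ₗ AddMonoidHom.toIntLinearMap
        ((LinearEquiv.ofInjective M.mulVecLin hinj : (Fin 3 → ℤ) ≃ₗ[ℤ] N) :
          (Fin 3 → ℤ) →+ N) = Matrix.toLin' M := by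
      ext i j
      simp
    rw [this, LinearMap.det_toLin']
  have hfin : Finite ((Fin 3 → ℤ) ⧸ N) := by
    apply Nat.finite_of_card_ne_zero
    rw [hcard]
    exact Int.natAbs_ne_zero.mpr hM
  have := Fintype.ofFinite ((Fin 3 → ℤ) ⧸ N)
  classical
  set B : Finset (Fin 3 → ℤ) := Fintype.piFinset fun _ => Finset.Icc (0 : ℤ) m with hB
  have hBc : B.card = (m + 1) ^ 3 := by
    rw [hB, Fintype.card_piFinset]
    simp
  obtain ⟨x, hx, y, hy, hxy, h⟩ := Finset.exists_ne_map_eq_of_card_lt_of_maps_to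
    (s := B) (t := (Finset.univ : Finset ((Fin 3 → ℤ) ⧸ N))) (f := fun x => N.mkQ x)
    (by rw [hBc, Finset.card_univ, ← Nat.card_eq_fintype_card, hcard]; exact hm)
    (by intro x _; simp)
  simp only [Submodule.mkQ_apply] at h
  rw [Submodule.Quotient.eq] at h
  obtain ⟨w, hw⟩ := h
  rw [Matrix.mulVecLin_apply] at hw
  refine ⟨w, ?_, fun i => ?_⟩
  · rintro rfl
    rw [Matrix.mulVec_zero] at hw
    exact hxy (sub_eq_zero.mp hw.symm)
  · rw [hw]
    have h1 := Finset.mem_Icc.mp (Fintype.mem_piFinset.mp hx i)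
    have h2 := Finset.mem_Icc.mp (Fintype.mem_piFinset.mp hy i)
    rw [Pi.sub_apply, abs_le]
    constructor <;> linarith [h1.1, h1.2, h2.1, h2.2]

theorem abs_det_le (M : M3) (B t : ℤ) (h0 : ∀ i, |M i 0| ≤ B) (h1 : ∀ i, |M i 1| ≤ t * B)
    (h2 : ∀ i, |M i 2| ≤ t * (t * B)) : |M.det| ≤ 6 * t ^ 3 * B ^ 3 := by
  have hB : 0 ≤ B := (abs_nonneg _).trans (h0 0)
  have htB : 0 ≤ t * B := (abs_nonneg _).trans (h1 0)
  have key : ∀ i j k, |M i 0 * M j 1 * M k 2| ≤ t ^ 3 * B ^ 3 := by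
    intro i j k
    rw [abs_mul, abs_mul]
    calc |M i 0| * |M j 1| * |M k 2| ≤ B * (t * B) * (t * (t * B)) :=
          mul_le_mul (mul_le_mul (h0 i) (h1 j) (abs_nonneg _) hB) (h2 k) (abs_nonneg _)
            (by positivity)
      _ = t ^ 3 * B ^ 3 := by ring
  have a1 := abs_le.mp (key 0 1 2)
  have a2 := abs_le.mp (key 0 2 1)
  have a3 := abs_le.mp (key 1 0 2)
  have a4 := abs_le.mp (key 1 2 0)
  have a5 := abs_le.mp (key 2 0 1)
  have a6 := abs_le.mp (key 2 1 0)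
  rw [Matrix.det_fin_three, abs_le]
  constructor
  · linarith [a1.1, a1.2, a2.1, a2.2, a3.1, a3.2, a4.1, a4.2, a5.1, a5.2, a6.1, a6.2]
  · linarith [a1.1, a1.2, a2.1, a2.2, a3.1, a3.2, a4.1, a4.2, a5.1, a5.2, a6.1, a6.2]

theorem Cn_bound (n : ℤ) (B : ℤ) (v : Fin 3 → ℤ) (h : ∀ i, |v i| ≤ B) :
    ∀ i, |(Cn n *ᵥ v) i| ≤ (|n| + 2) * B := by
  have hB : 0 ≤ B := (abs_nonneg _).trans (h 0)
  have h0 := h 0
  have h1 := h 1
  have h2 := h 2
  intro i
  fin_cases i
  · simp [Cn, Matrix.mulVec, dotProduct, Fin.sum_univ_three]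
    nlinarith [abs_nonneg n]
  · simp [Cn, Matrix.mulVec, dotProduct, Fin.sum_univ_three]
    calc |v 0 + (1 - n) * v 2| ≤ |v 0| + |(1 - n) * v 2| := abs_add_le _ _
      _ = |v 0| + |1 - n| * |v 2| := by rw [abs_mul]
      _ ≤ B + (1 + |n|) * B := by
        have : |1 - n| ≤ 1 + |n| := by
          have := abs_sub (1 : ℤ) n
          simpa using this
        exact add_le_add h0 (mul_le_mul this h2 (abs_nonneg _) (by positivity))
      _ = (|n| + 2) * B := by ring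
  · simp [Cn, Matrix.mulVec, dotProduct, Fin.sum_univ_three]
    calc |v 1 + n * v 2| ≤ |v 1| + |n * v 2| := abs_add_le _ _
      _ = |v 1| + |n| * |v 2| := by rw [abs_mul]
      _ ≤ B + |n| * B := add_le_add h1 (mul_le_mul_of_nonneg_left h2 (abs_nonneg _))
      _ ≤ (|n| + 2) * B := by nlinarith

theorem small_vec {A : M3} (hA : IsCS A) : ∃ w : Fin 3 → ℤ, (Kc A w).det ≠ 0 ∧
    |(Kc A w).det| ≤ 6 * (|A.trace| + 2) ^ 3 := by
  set e : Fin 3 → ℤ := ![1, 0, 0] with he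
  have he0 : e ≠ 0 := by
    intro h
    have := congrFun h 0
    simp [he] at this
  set K0 := Kc A e with hK0
  have hk : K0.det ≠ 0 := Kc_ne hA _ e le_rfl he0
  set M := K0.adjugate with hM
  have hMd : M.det = K0.det ^ 2 := adj_det
  have hM0 : M.det ≠ 0 := by rw [hMd]; exact pow_ne_zero 2 hk
  obtain ⟨m, hm1, hm2⟩ := cube_between M.det.natAbs
  obtain ⟨w, hw0, hw⟩ := pigeon M hM0 m hm2
  refine ⟨w, Kc_ne hA _ w le_rfl hw0, ?_⟩
  have hint : Cn A.trace * M = M * A := (adj_intertwine hk (Kc_comp hA e)).symm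
  have h1 : Kc (Cn A.trace) (M *ᵥ w) = M * Kc A w := Kc_mul _ _ _ hint w
  have h2 := congrArg Matrix.det h1
  rw [Matrix.det_mul] at h2
  have h3 : |(Kc (Cn A.trace) (M *ᵥ w)).det| ≤ 6 * (|A.trace| + 2) ^ 3 * (m : ℤ) ^ 3 := by
    apply abs_det_le
    · intro i; simpa [Kc] using hw i
    · intro i
      have := Cn_bound A.trace m _ hw i
      simpa [Kc] using this
    · intro i
      have := Cn_bound A.trace _ _ (Cn_bound A.trace m _ hw) i
      simpa [Kc] using this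
  rw [h2, abs_mul] at h3
  have hMpos : 0 < |M.det| := abs_pos.mpr hM0
  have h4 : (m : ℤ) ^ 3 ≤ |M.det| := by
    rw [Int.abs_eq_natAbs]
    exact_mod_cast hm1
  have h5 : |M.det| * |(Kc A w).det| ≤ |M.det| * (6 * (|A.trace| + 2) ^ 3) := by
    refine h3.trans ?_
    have : 0 ≤ 6 * (|A.trace| + 2) ^ 3 := by positivity
    nlinarith
  exact le_of_mul_le_mul_left h5 hMpos

/-- For each trace there are finitely many similarity classes of Cappell-Shaneson matrices. -/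
theorem finite_trace (n : ℤ) :
    ∃ c : ℕ, Set.encard {S : Set M3 | ∃ A, IsCS A ∧ A.trace = n ∧ S = Cls A} ≤ c := by
  obtain ⟨c, hc⟩ := count_cls ((6 * (n.natAbs + 2) ^ 3) ^ 2)
  refine ⟨c, le_trans (Set.encard_le_encard ?_) (hc (Cn n))⟩
  rintro S ⟨A, hA, rfl, rfl⟩
  obtain ⟨w, hw0, hw⟩ := small_vec hA
  refine ⟨A, (Kc A w).adjugate, rfl, adj_intertwine hw0 (Kc_comp hA w), ?_, ?_⟩
  · rw [adj_det]; exact pow_ne_zero 2 hw0
  · rw [adj_det, abs_pow]
    have h1 : (((6 * (A.trace.natAbs + 2) ^ 3) ^ 2 : ℕ) : ℤ) = (6 * (|A.trace| + 2) ^ 3) ^ 2 := by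
      rw [Int.abs_eq_natAbs]; push_cast; ring
    rw [h1]
    exact pow_le_pow_left₀ (abs_nonneg _) hw 2

end Pool.Agent.Lib_helper72.GCC
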