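import Pool.Agent.Lib_helper72.GC.Crit
import Pool.Agent.Lib_helper72.GCC.Small

/-!
# GCC: from lattices to integral matrices
-/

set_option autoImplicit false

namespace Pool.Agent.Lib_helper72.GCC

open Matrix Pool.Agent.Lib_helper83.CS Pool.Agent.Lib_helper72.GC

/-- The matrix of `g`. -/
def Gm (g : Fin 3 → V) : Matrix (Fin 3) (Fin 3) ℝ := Matrix.of fun j i => g j i

/-- The element of the lattice with coordinates `v`. -/
def phi (g : Fin 3 → V) (v : Fin 3 → ℤ) : V := fun i => ∑ j, (v j : ℝ) * g j i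

theorem theta_inj (F : Frame) {a b : Fin 3} (h : a ≠ b) : F.θ a - F.θ b ≠ 0 := by
  have hV := Vd_ne F
  unfold Vd at hV
  have h1 : F.θ 0 - F.θ 1 ≠ 0 := fun h => hV (by rw [h]; ring)
  have h2 : F.θ 0 - F.θ 2 ≠ 0 := fun h => hV (by rw [h]; ring)
  have h3 : F.θ 1 - F.θ 2 ≠ 0 := fun h => hV (by rw [h]; ring)
  fin_cases a <;> fin_cases b <;> first
    | exact absurd rfl h
    | assumption
    | (intro h4; first
        | exact h1 (by simp at h4 ⊢; linarith)
        | exact h2 (by simp at h4 ⊢; linarith)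
        | exact h3 (by simp at h4 ⊢; linarith))

/-- Every Cappell-Shaneson matrix of large trace has a lattice. -/
theorem exists_rep (F : Frame) (hs : F.s = -1) (ht : F.t = -1) {A : M3} (hA : IsCS A)
    (hn : A.trace = F.n) : ∃ g : Fin 3 → V, Rep A F.θ g ∧ (Gm g).det ≠ 0 := by
  have hmid := mid_of_isCS hA
  have hdet := hA.1
  have key : ∀ i, ∃ w : Fin 3 → ℝ, w ≠ 0 ∧
      w ᵥ* (A.map (Int.cast : ℤ → ℝ) - F.θ i • (1 : Matrix (Fin 3) (Fin 3) ℝ)) = 0 := by
    intro i
    rw [Matrix.exists_vecMul_eq_zero_iff]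
    have hr := F.root i
    rw [hs, ht, ← hn] at hr
    rw [Matrix.trace_fin_three] at hn hmid hr
    rw [Matrix.det_fin_three] at hdet ⊢
    unfold mid at hmid
    have hmidR : (((A 0 0 * A 1 1 - A 0 1 * A 1 0) + (A 0 0 * A 2 2 - A 0 2 * A 2 0)
      + (A 1 1 * A 2 2 - A 1 2 * A 2 1) : ℤ) : ℝ) = ((A 0 0 + A 1 1 + A 2 2 - 1 : ℤ) : ℝ) := by
      rw [hmid]
    have hdetR : ((A 0 0 * A 1 1 * A 2 2 - A 0 0 * A 1 2 * A 2 1 - A 0 1 * A 1 0 * A 2 2 +
      A 0 1 * A 1 2 * A 2 0 + A 0 2 * A 1 0 * A 2 1 - A 0 2 * A 1 1 * A 2 0 : ℤ) : ℝ) =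
      ((1 : ℤ) : ℝ) := by rw [hdet]
    push_cast at hmidR hdetR hr
    simp [Matrix.sub_apply, Matrix.smul_apply, Matrix.one_apply]
    linear_combination hdetR - F.θ i * hmidR - hr
  choose w hw0 hw using key
  refine ⟨fun j i => w i j, ?_, ?_⟩
  · intro i j
    have h1 := congrFun (hw i) j
    rw [Matrix.vecMul_sub, Pi.sub_apply] at h1
    simp only [Matrix.vecMul, dotProduct, Matrix.map_apply, Matrix.smul_apply, Matrix.one_apply,
      smul_eq_mul, mul_ite, mul_one, mul_zero, Finset.sum_ite_eq', Finset.mem_univ, if_true,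
      Pi.zero_apply] at h1
    have h2 : ∑ k, (A k j : ℝ) * w i k = ∑ k, w i k * (A k j : ℝ) :=
      Finset.sum_congr rfl fun k _ => mul_comm _ _
    rw [h2]
    linarith
  · intro h0
    obtain ⟨c, hc0, hc⟩ := Matrix.exists_mulVec_eq_zero_iff.mpr h0
    -- `sum_i c_i w_i = 0`
    have e0 : ∀ j, ∑ i, c i * w i j = 0 := by
      intro j
      have := congrFun hc j
      simp only [Matrix.mulVec, dotProduct, Gm, Matrix.of_apply, Pi.zero_apply] at this
      rw [← this]
      exact Finset.sum_congr rfl fun i _ => mul_comm _ _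
    have hR : ∀ i j, F.θ i * w i j = ∑ k, w i k * (A k j : ℝ) := by
      intro i j
      have h1 := congrFun (hw i) j
      rw [Matrix.vecMul_sub, Pi.sub_apply] at h1
      simp only [Matrix.vecMul, dotProduct, Matrix.map_apply, Matrix.smul_apply,
        Matrix.one_apply, smul_eq_mul, mul_ite, mul_one, mul_zero, Finset.sum_ite_eq',
        Finset.mem_univ, if_true, Pi.zero_apply] at h1
      linarith
    have step : ∀ y : Fin 3 → ℝ, (∀ j, ∑ i, y i * w i j = 0) →
        ∀ j, ∑ i, (y i * F.θ i) * w i j = 0 := by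
      intro y hy j
      have h1 : ∀ i, (y i * F.θ i) * w i j = ∑ k, y i * w i k * (A k j : ℝ) := by
        intro i
        rw [mul_assoc, hR i j, Finset.mul_sum]
        exact Finset.sum_congr rfl fun k _ => by ring
      rw [Finset.sum_congr rfl fun i _ => h1 i, Finset.sum_comm]
      have h2 : ∀ k, ∑ i, y i * w i k * (A k j : ℝ) = 0 := by
        intro k
        rw [← Finset.sum_mul, hy k, zero_mul]
      rw [Finset.sum_congr rfl fun k _ => h2 k]
      simp
    have e1 := step c e0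
    have e2 := step _ e1
    apply hc0
    funext i
    by_contra hci
    apply hw0 i
    funext j
    have a0 := e0 j
    have a1 := e1 j
    have a2 := e2 j
    simp only [Fin.sum_univ_three] at a0 a1 a2
    have d01 := theta_inj F (a := 0) (b := 1) (by decide)
    have d02 := theta_inj F (a := 0) (b := 2) (by decide)
    have d12 := theta_inj F (a := 1) (b := 2) (by decide)
    have hci' : c i ≠ 0 := hci
    have : ∀ i, c i * w i j = 0 := by
      intro i
      fin_cases i
      · have : ((F.θ 0 - F.θ 1) * (F.θ 0 - F.θ 2)) * (c 0 * w 0 j) = 0 := by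
          linear_combination a2 - (F.θ 1 + F.θ 2) * a1 + F.θ 1 * F.θ 2 * a0
        exact (mul_eq_zero.mp this).resolve_left (mul_ne_zero d01 d02)
      · have : ((F.θ 0 - F.θ 1) * (F.θ 1 - F.θ 2)) * (c 1 * w 1 j) = 0 := by
          linear_combination (-1 : ℝ) * a2 + (F.θ 0 + F.θ 2) * a1 - F.θ 0 * F.θ 2 * a0
        exact (mul_eq_zero.mp this).resolve_left (mul_ne_zero d01 d12)
      · have : ((F.θ 0 - F.θ 2) * (F.θ 1 - F.θ 2)) * (c 2 * w 2 j) = 0 := by
          linear_combination a2 - (F.θ 0 + F.θ 1) * a1 + F.θ 0 * F.θ 1 * a0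
        exact (mul_eq_zero.mp this).resolve_left (mul_ne_zero d02 d12)
    exact (mul_eq_zero.mp (this i)).resolve_left hci'

theorem phi_A {A : M3} {θ : V} {g : Fin 3 → V} (hg : Rep A θ g) (v : Fin 3 → ℤ) (i : Fin 3) :
    phi g (A *ᵥ v) i = θ i * phi g v i := by
  have h0 := hg i 0
  have h1 := hg i 1
  have h2 := hg i 2
  simp only [phi, Matrix.mulVec, dotProduct, Fin.sum_univ_three] at h0 h1 h2 ⊢
  push_cast
  linear_combination (-(v 0 : ℝ)) * h0 - (v 1 : ℝ) * h1 - (v 2 : ℝ) * h2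

theorem phi_mem (g : Fin 3 → V) (v : Fin 3 → ℤ) : phi g v ∈ Span g := ⟨v, fun _ => rfl⟩

theorem mem_phi {g : Fin 3 → V} {x : V} (h : x ∈ Span g) : ∃ v, x = phi g v := by
  obtain ⟨m, hm⟩ := h
  exact ⟨m, funext hm⟩

theorem phi_inj {g : Fin 3 → V} (hg : (Gm g).det ≠ 0) {v w : Fin 3 → ℤ}
    (h : phi g v = phi g w) : v = w := by
  by_contra hne
  apply hg
  apply Matrix.exists_vecMul_eq_zero_iff.mp
  refine ⟨fun j => ((v j - w j : ℤ) : ℝ), ?_, ?_⟩
  · intro h0
    apply hne
    funext j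
    have := congrFun h0 j
    have h1 : ((v j - w j : ℤ) : ℝ) = 0 := this
    have h2 : v j - w j = 0 := by exact_mod_cast h1
    linarith
  · funext i
    have := congrFun h i
    simp only [phi, Fin.sum_univ_three] at this
    simp only [Matrix.vecMul, dotProduct, Gm, Matrix.of_apply, Fin.sum_univ_three, Pi.zero_apply]
    push_cast
    linarith

theorem Nm_phi {A : M3} {θ : V} {g : Fin 3 → V} (hg : Rep A θ g) (v : Fin 3 → ℤ) :
    |Nm (phi g v)| * |Vd θ| = |((Kc A v).det : ℝ)| * |(Gm g).det| := by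
  have h1 : ((Kc A v).map (Int.cast : ℤ → ℝ)).transpose * Gm g =
      Matrix.of fun (j i : Fin 3) => phi g v i * θ i ^ (j : ℕ) := by
    ext j i
    have h0 : phi g v i = ∑ k, (v k : ℝ) * g k i := rfl
    have h1 := phi_A hg v i
    have h2 := phi_A hg (A *ᵥ v) i
    fin_cases j
    · simp [Matrix.mul_apply, Kc, Gm, phi]
    · simp only [Matrix.mul_apply, Kc, Gm, Matrix.transpose_apply, Matrix.map_apply,
        Matrix.of_apply]
      show ∑ k, (((A *ᵥ v) k : ℤ) : ℝ) * g k i = phi g v i * θ i ^ 1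
      rw [show ∑ k, (((A *ᵥ v) k : ℤ) : ℝ) * g k i = phi g (A *ᵥ v) i from rfl, h1]
      ring
    · simp only [Matrix.mul_apply, Kc, Gm, Matrix.transpose_apply, Matrix.map_apply,
        Matrix.of_apply]
      show ∑ k, (((A *ᵥ (A *ᵥ v)) k : ℤ) : ℝ) * g k i = phi g v i * θ i ^ 2
      rw [show ∑ k, (((A *ᵥ (A *ᵥ v)) k : ℤ) : ℝ) * g k i = phi g (A *ᵥ (A *ᵥ v)) i from rfl,
        h2, h1]
      ring
  have h2 := congrArg Matrix.det h1
  rw [Matrix.det_mul, Matrix.det_transpose] at h2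
  have h3 : ((Kc A v).map (Int.cast : ℤ → ℝ)).det = ((Kc A v).det : ℝ) := by
    rw [Matrix.det_fin_three, Matrix.det_fin_three]
    simp
  have h4 : (Matrix.of fun (j i : Fin 3) => phi g v i * θ i ^ (j : ℕ)).det =
      -(Nm (phi g v) * Vd θ) := by
    rw [Matrix.det_fin_three]
    simp [Nm, Vd]
    ring
  rw [h3, h4] at h2
  rw [← abs_mul, ← abs_mul, ← abs_neg, ← h2]

/-- The two ways in which a class can fail to be a good root. -/
theorem bad_cases {A : M3} (hA : IsCS A) (hn : 10 ^ 24 ≤ |A.trace|)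
    (hB : ∃ B, Gompf A B ∧ |B.trace| ≤ |A.trace| ∧ B ∉ Cls A) :
    (∃ s c : ℤ, 1 ≤ s ∧ s ≤ 3 * |A.trace| ∧ 0 ≤ c ∧ c < s ∧ s ∣ F A.trace c 1 ∧
      ∃ T : M3, T * A = Xk A.trace s c * T ∧ T.det ≠ 0 ∧ |T.det| ≤ 256) ∨
    ∃ T : M3, T * A = Cn A.trace * T ∧ T.det ≠ 0 ∧ |T.det| ≤ E0 := by
  have h6 : (10 : ℤ) ^ 6 ≤ 10 ^ 24 := by norm_num
  obtain ⟨F, f1, f2, f3, f4⟩ := frame_th A.trace (by linarith)
  obtain ⟨g, hg, hgd⟩ := exists_rep F f1 f2 hA f3.symm
  have hV := abs_pos.mpr (Vd_ne F)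
  set ρ0 : ℝ := |(Gm g).det| / |Vd F.θ| with hρ
  have hρ0 : 0 < ρ0 := div_pos (abs_pos.mpr hgd) hV
  have hρV : |(Gm g).det| = ρ0 * |Vd F.θ| := by rw [hρ]; field_simp
  have hng : ¬ GoodRoot A.trace (Span g) ρ0 := by
    intro hG
    obtain ⟨B, hB1, hB2, hB3⟩ := hB
    apply hB3
    exact tree_main hG rfl ⟨g, by rw [← f4]; exact hg, rfl, by rw [← f4]; exact hρV⟩ B hB1 hB2
  by_cases hα : ∀ x : V, Prim (Span g) x → RC F.θ (Span g) x → (∀ i, x i ≠ 0) →
      3 * |(A.trace : ℝ)| * ρ0 < |Nm x|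
  · right
    by_contra hβ
    apply hng
    refine goodRoot_of hn hρ0 (by rw [← f4]; exact hα) ?_
    rw [← f4]
    intro v hv hvL
    by_contra hle
    push Not at hle
    apply hβ
    -- the integral matrix
    have h1 : ∀ j, ∃ a : Fin 3 → ℤ, ∀ i, v i * g j i = a 0 + a 1 * F.θ i + a 2 * F.θ i ^ 2 := by
      intro j
      have hj : g j ∈ Span g := by
        refine ⟨Pi.single j 1, fun i => ?_⟩
        simp [Pi.single_apply]
      obtain ⟨a, b, c, h⟩ := hvL (g j) hj
      exact ⟨![a, b, c], fun i => by simpa using h i⟩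
    choose a ha using h1
    set W : M3 := Matrix.of fun i j => a j i with hW
    have hWe : ∀ i j, W i j = a j i := fun _ _ => rfl
    have hWd : |(W.det : ℝ)| * |Vd F.θ| = |Nm v| * |(Gm g).det| := by
      have h3 : (W.map (Int.cast : ℤ → ℝ)).transpose *
          (Matrix.of fun (j i : Fin 3) => F.θ i ^ (j : ℕ)) = Gm g * Matrix.diagonal v := by
        ext j i
        rw [Matrix.mul_diagonal]
        have := ha j i
        simp [Matrix.mul_apply, Fin.sum_univ_three, hW, Gm]
        linarith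
      have h4 := congrArg Matrix.det h3
      rw [Matrix.det_mul, Matrix.det_mul, Matrix.det_transpose, Matrix.det_diagonal,
        Fin.prod_univ_three] at h4
      have h5 : (W.map (Int.cast : ℤ → ℝ)).det = (W.det : ℝ) := by
        rw [Matrix.det_fin_three, Matrix.det_fin_three]
        simp
      have h6 : (Matrix.of fun (j i : Fin 3) => F.θ i ^ (j : ℕ)).det = -Vd F.θ := by
        rw [Matrix.det_fin_three]
        simp [Vd]
        ring
      rw [h5, h6] at h4
      rw [← abs_mul, ← abs_mul, ← abs_neg]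
      congr 1
      unfold Nm
      linarith
    have hWr : |(W.det : ℝ)| = ρ0 * |Nm v| := by
      rw [hρV] at hWd
      have : |(W.det : ℝ)| * |Vd F.θ| = (ρ0 * |Nm v|) * |Vd F.θ| := by rw [hWd]; ring
      exact mul_right_cancel₀ hV.ne' this
    have hv0 : Nm v ≠ 0 := mul_ne_zero (mul_ne_zero (hv 0) (hv 1)) (hv 2)
    refine ⟨W, ?_, ?_, ?_⟩
    · -- intertwining
      have h2 : ∀ j, (∑ k, A k j * a k 0 = a j 2) ∧
          (∑ k, A k j * a k 1 = a j 0 - (A.trace - 1) * a j 2) ∧
          (∑ k, A k j * a k 2 = a j 1 + A.trace * a j 2) := by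
        intro j
        refine O_coordC F 0 ?_
        have e1 := hg 0 j
        have b0 := ha 0 0
        have b1 := ha 1 0
        have b2 := ha 2 0
        have bj := ha j 0
        have hr := F.root 0
        rw [f1, f2, f3] at hr
        simp only [Fin.sum_univ_three] at e1 ⊢
        push_cast at hr ⊢
        linear_combination (-(v 0)) * e1 - (A 0 j : ℝ) * b0 - (A 1 j : ℝ) * b1
          - (A 2 j : ℝ) * b2 + F.θ 0 * bj + (a j 2 : ℝ) * hr
      ext i j
      obtain ⟨k0, k1, k2⟩ := h2 j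
      simp only [Fin.sum_univ_three] at k0 k1 k2
      fin_cases i
      · simp [Matrix.mul_apply, Fin.sum_univ_three, Cn, hWe]
        linarith
      · simp [Matrix.mul_apply, Fin.sum_univ_three, Cn, hWe]
        linarith
      · simp [Matrix.mul_apply, Fin.sum_univ_three, Cn, hWe]
        linarith
    · intro h0
      rw [h0] at hWr
      have := mul_pos hρ0 (abs_pos.mpr hv0)
      simp at hWr
      rcases hWr with h | h
      · linarith
      · exact hv0 h
    · have : |(W.det : ℝ)| ≤ E0 := by rw [hWr]; exact hle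
      exact_mod_cast this
  · left
    push Not at hα
    obtain ⟨x, hx, hRC, hx0, hxN⟩ := hα
    obtain ⟨v, rfl⟩ := mem_phi hx.1
    have hN0 : Nm (phi g v) ≠ 0 := mul_ne_zero (mul_ne_zero (hx0 0) (hx0 1)) (hx0 2)
    have hNK := Nm_phi hg v
    have hKr : |Nm (phi g v)| = ρ0 * |((Kc A v).det : ℝ)| := by
      rw [hρV] at hNK
      have : |Nm (phi g v)| * |Vd F.θ| = (ρ0 * |((Kc A v).det : ℝ)|) * |Vd F.θ| := by
        rw [hNK]; ring
      exact mul_right_cancel₀ hV.ne' this
    have hK0 : (Kc A v).det ≠ 0 := by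
      intro h0
      rw [h0] at hKr
      simp at hKr
      exact hN0 hKr
    have hKle : |(Kc A v).det| ≤ 3 * |A.trace| := by
      rw [hKr] at hxN
      have h1 : |((Kc A v).det : ℝ)| ≤ 3 * |(A.trace : ℝ)| := by
        have : ρ0 * |((Kc A v).det : ℝ)| ≤ ρ0 * (3 * |(A.trace : ℝ)|) := by linarith
        exact le_of_mul_le_mul_left this hρ0
      exact_mod_cast h1
    -- primitive
    obtain ⟨lam, hlam⟩ : ∃ lam : Fin 3 → ℤ, lam 0 * v 0 + lam 1 * v 1 + lam 2 * v 2 = 1 := by
      have hsmul : ∀ (m : ℤ) (w : Fin 3 → ℤ), (∀ j, v j = m * w j) → m = 1 ∨ m = -1 := by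
        intro m w hw
        refine hx.2 m (phi g w) (phi_mem g w) fun i => ?_
        simp only [phi, Fin.sum_univ_three]
        rw [hw 0, hw 1, hw 2]
        push_cast
        ring
      by_cases h12 : v 1 = 0 ∧ v 2 = 0
      · have h1 := hsmul (v 0) ![1, 0, 0] (by
          intro j
          fin_cases j
          · simp
          · simpa using h12.1
          · simpa using h12.2)
        rcases h1 with h | h
        · exact ⟨![1, 0, 0], by simp [h]⟩
        · exact ⟨![-1, 0, 0], by simp [h]⟩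
      · obtain ⟨r, a, b, x', y', hr, ha, hb, hab⟩ := gcd_data h12
        have h0r : ¬ (v 0 = 0 ∧ r = 0) := fun h => by linarith [h.2]
        obtain ⟨m, c, d, x2, y2, hm, hc, hd, hcd⟩ := gcd_data h0r
        have h1 := hsmul m ![c, d * a, d * b] (by
          intro j
          fin_cases j
          · simpa using hc
          · simp; rw [ha, hd]; ring
          · simp; rw [hb, hd]; ring)
        have hm1 : m = 1 := by rcases h1 with h | h <;> [exact h; linarith]
        refine ⟨![x2, y2 * x', y2 * y'], ?_⟩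
        simp
        rw [ha, hb, hc]
        rw [hm1] at hd ⊢
        linear_combination (y2 * r) * hab + y2 * hd + hcd
    obtain ⟨r, s, c, T, m, u, hr, hs, hc0, hcs, hdv, hTd, hAT, hKd, hAv⟩ :=
      struct hA hlam hK0
    have hr4 : |r| ≤ 4 := by
      apply hRC r
      rintro y ⟨a0, a1, a2, hy⟩
      refine ⟨a0 + a1 * m + a2 * m ^ 2,
        phi g (fun j => a1 * u j + a2 * (m * u j + (A *ᵥ u) j)), phi_mem _ _, fun i => ?_⟩
      have e1 : F.θ i * phi g v i = m * phi g v i + r * phi g u i := by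
        rw [← phi_A hg v i]
        simp only [phi, Fin.sum_univ_three, hAv]
        push_cast
        ring
      have e2 := phi_A hg u i
      have e3 : phi g (fun j => a1 * u j + a2 * (m * u j + (A *ᵥ u) j)) i =
          a1 * phi g u i + a2 * (m * phi g u i + phi g (A *ᵥ u) i) := by
        simp only [phi, Fin.sum_univ_three]
        push_cast
        ring
      rw [e3, e2, hy i]
      push_cast
      linear_combination ((a1 : ℝ) + a2 * (F.θ i + m)) * e1
    rw [abs_of_pos hr] at hr4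
    have hr16 : r ^ 2 ≤ 16 := by nlinarith
    have hr1 : 1 ≤ r ^ 2 := by nlinarith
    have hT0 : T.det ≠ 0 := by
      intro h0
      rw [h0] at hTd
      simp at hTd
      rw [← hTd] at hr1
      linarith
    refine ⟨s, c, hs, ?_, hc0, hcs, hdv, T.adjugate, adj_intertwine hT0 hAT, ?_, ?_⟩
    · have : s ≤ r ^ 2 * s := by nlinarith
      linarith [hKd ▸ hKle]
    · rw [adj_det]; exact pow_ne_zero 2 hT0
    · rw [adj_det, abs_pow, hTd]
      nlinarith

end Pool.Agent.Lib_helper72.GCC
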