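import Mathlib
import Pool.Agent.Lib_helper83.CS.Core

/-!
# GCC: the number of labels
-/

set_option autoImplicit false

namespace Pool.Agent.Lib_helper72.GCC

open Matrix Pool.Agent.Lib_helper83.CS

/-- The labels `(n, d, c)` with `|n| ≤ N`, `d ≤ 3 N`. -/
noncomputable def Keys (N : ℤ) : Finset (ℤ × ℤ × ℤ) :=
  ((Finset.Icc (-N) N) ×ˢ ((Finset.Icc 1 (3 * N)) ×ˢ (Finset.Ico 0 (3 * N)))).filter
    fun k => k.2.2 < k.2.1 ∧ k.2.1 ∣ F k.1 k.2.2 1

theorem coprime_label {n d c : ℤ} (h : d ∣ F n c 1) : IsCoprime d (c * (c - 1)) := by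
  obtain ⟨m, hm⟩ := h
  unfold F at hm
  have h1 : IsCoprime d c := ⟨-m, c ^ 2 - n * c + (n - 1), by linear_combination hm⟩
  have h2 : IsCoprime d (c - 1) :=
    ⟨-m, c ^ 2 + (1 - n) * c, by linear_combination hm⟩
  exact h1.mul_right h2

/-- The number of `n` in `[-N, N]` in a residue class. -/
theorem card_residue {N d a : ℤ} (hN : 0 ≤ N) (hd : 0 < d) :
    (((Finset.Icc (-N) N).filter fun n => d ∣ n - a).card : ℤ) * d ≤ 2 * N + d := by
  have h1 : (Finset.Icc (-N) N).filter (fun n => d ∣ n - a) =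
      (Finset.Ioc (-N - 1) N).filter (fun n => n ≡ a [ZMOD d]) := by
    ext n
    simp only [Finset.mem_filter, Finset.mem_Icc, Finset.mem_Ioc]
    constructor
    · rintro ⟨⟨h1, h2⟩, h3⟩
      exact ⟨⟨by linarith, h2⟩, (Int.modEq_iff_dvd.mpr (by rw [← neg_sub]; exact (dvd_neg.mpr h3)))⟩
    · rintro ⟨⟨h1, h2⟩, h3⟩
      refine ⟨⟨by linarith, h2⟩, ?_⟩
      have := Int.modEq_iff_dvd.mp h3
      rw [← neg_sub]; exact dvd_neg.mpr this
  rw [h1, Int.Ioc_filter_modEq_card _ _ hd]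
  have hd' : (0 : ℚ) < d := by exact_mod_cast hd
  have h2 : (⌊((N - a : ℤ) : ℚ) / d⌋ : ℚ) ≤ ((N - a : ℤ) : ℚ) / d := Int.floor_le _
  have h3 : ((-N - 1 - a : ℤ) : ℚ) / d < ⌊((-N - 1 - a : ℤ) : ℚ) / d⌋ + 1 := Int.lt_floor_add_one _
  rw [max_def]
  split_ifs with h
  · nlinarith
  · have h4 : ((⌊((N - a : ℤ) : ℚ) / d⌋ - ⌊((-N - 1 - a : ℤ) : ℚ) / d⌋ : ℤ) : ℚ) * d
        < 2 * N + 1 + d := by
      push_cast
      rw [div_lt_iff₀ hd'] at h3
      rw [le_div_iff₀ hd'] at h2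
      push_cast at h2 h3
      nlinarith
    have h5 : ((⌊((N - a : ℤ) : ℚ) / d⌋ - ⌊((-N - 1 - a : ℤ) : ℚ) / d⌋ : ℤ)) * d
        < 2 * N + 1 + d := by exact_mod_cast h4
    push_cast at h5 ⊢
    linarith

theorem card_label {N d c : ℤ} (hN : 0 ≤ N) (hd : 0 < d) :
    (((Finset.Icc (-N) N).filter fun n => d ∣ F n c 1).card : ℤ) * d ≤ 2 * N + d := by
  by_cases h : IsCoprime d (c * (c - 1))
  · obtain ⟨u, v, huv⟩ := h
    refine le_trans ?_ (card_residue (a := v * (c ^ 3 - c - 1)) hN hd)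
    refine mul_le_mul_of_nonneg_right ?_ hd.le
    refine Int.ofNat_le.mpr (Finset.card_le_card fun n hn => ?_)
    simp only [Finset.mem_filter] at hn ⊢
    refine ⟨hn.1, ?_⟩
    obtain ⟨m, hm⟩ := hn.2
    refine ⟨n * u - v * m, ?_⟩
    unfold F at hm
    linear_combination (-n) * huv - v * hm
  · have : (Finset.Icc (-N) N).filter (fun n => d ∣ F n c 1) = ∅ := by
      apply Finset.filter_eq_empty_iff.mpr
      intro n _ hn
      exact h (coprime_label hn)
    rw [this]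
    simp
    linarith

theorem Keys_card {N : ℤ} (hN : 1 ≤ N) : ((Keys N).card : ℤ) ≤ 24 * N ^ 2 := by
  have h1 : Keys N ⊆ (Finset.Icc 1 (3 * N)).biUnion fun d => (Finset.Ico 0 d).biUnion fun c =>
      ((Finset.Icc (-N) N).filter fun n => d ∣ F n c 1).image fun n => (n, d, c) := by
    intro k hk
    simp only [Keys, Finset.mem_filter, Finset.mem_product, Finset.mem_Icc, Finset.mem_Ico] at hk
    simp only [Finset.mem_biUnion, Finset.mem_Icc, Finset.mem_Ico, Finset.mem_image,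
      Finset.mem_filter]
    exact ⟨k.2.1, hk.1.2.1, k.2.2, ⟨hk.1.2.2.1, hk.2.1⟩, k.1, ⟨hk.1.1, hk.2.2⟩, rfl⟩
  have h2 : ((Keys N).card : ℤ) ≤ ∑ d ∈ Finset.Icc 1 (3 * N), (2 * N + d) := by
    have h3 : (Keys N).card ≤ ∑ d ∈ Finset.Icc 1 (3 * N), ∑ c ∈ Finset.Ico 0 d,
        ((Finset.Icc (-N) N).filter fun n => d ∣ F n c 1).card := by
      refine (Finset.card_le_card h1).trans (Finset.card_biUnion_le.trans ?_)
      refine Finset.sum_le_sum fun d _ => Finset.card_biUnion_le.trans ?_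
      exact Finset.sum_le_sum fun c _ => Finset.card_image_le
    have h4 : ((Keys N).card : ℤ) ≤ ∑ d ∈ Finset.Icc 1 (3 * N), ∑ c ∈ Finset.Ico 0 d,
        (((Finset.Icc (-N) N).filter fun n => d ∣ F n c 1).card : ℤ) := by exact_mod_cast h3
    refine h4.trans (Finset.sum_le_sum fun d hd => ?_)
    rw [Finset.mem_Icc] at hd
    have hd0 : 0 < d := by linarith
    have h5 : (∑ c ∈ Finset.Ico 0 d,
        (((Finset.Icc (-N) N).filter fun n => d ∣ F n c 1).card : ℤ)) * d ≤ d * (2 * N + d) := by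
      rw [Finset.sum_mul]
      refine (Finset.sum_le_sum fun c _ => card_label (by linarith) hd0).trans ?_
      rw [Finset.sum_const, Int.card_Ico]
      simp only [sub_zero, nsmul_eq_mul]
      rw [Int.toNat_of_nonneg hd0.le]
    rw [mul_comm] at h5
    exact le_of_mul_le_mul_left h5 hd0
  refine h2.trans ((Finset.sum_le_sum (g := fun _ => 5 * N) fun d hd => ?_).trans ?_)
  · rw [Finset.mem_Icc] at hd; linarith
  · rw [Finset.sum_const, Int.card_Icc]
    simp only [nsmul_eq_mul]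
    rw [Int.toNat_of_nonneg (by linarith)]
    nlinarith

end Pool.Agent.Lib_helper72.GCC
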