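import Pool.Agent.Lib_helper72.GCC.Alg
import Pool.Agent.Lib_helper72.GCC.Keys

/-!
# GCC: the number of bad classes
-/

set_option autoImplicit false

namespace Pool.Agent.Lib_helper72.GCC

open Matrix Pool.Agent.Lib_helper83.CS Pool.Agent.Lib_helper72.GC

/-- The labels of trace `n` with `d ≤ 3 |n|`. -/
noncomputable def Lab (n : ℤ) : Finset (ℤ × ℤ) :=
  ((Finset.Icc 1 (3 * |n|)) ×ˢ (Finset.Ico 0 (3 * |n|))).filter
    fun k => k.2 < k.1 ∧ k.1 ∣ F n k.2 1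

/-- The classes intertwined with `X`. -/
def CX (X : M3) (D : ℕ) : Set (Set M3) :=
  {S : Set M3 | ∃ A T : M3, S = Cls A ∧ T * A = X * T ∧ T.det ≠ 0 ∧ |T.det| ≤ D}

/-- The bad classes of trace `n`: those Gompf equivalent to a matrix of another class whose trace
is at most `|n|`. -/
def Bad (n : ℤ) : Set (Set M3) :=
  {S | ∃ A, IsCS A ∧ A.trace = n ∧ S = Cls A ∧ ∃ B, Gompf A B ∧ |B.trace| ≤ |n| ∧ B ∉ Cls A}

theorem bad_sub (n : ℤ) (hn : 10 ^ 24 ≤ |n|) :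
    Bad n ⊆ (⋃ k ∈ Lab n, CX (Xk n k.1 k.2) 256) ∪ CX (Cn n) E0.toNat := by
  rintro S ⟨A, hA, rfl, rfl, hB⟩
  rcases bad_cases hA hn hB with ⟨s, c, h1, h2, h3, h4, h5, T, h6, h7, h8⟩ | ⟨T, h6, h7, h8⟩
  · left
    simp only [Set.mem_iUnion]
    refine ⟨(s, c), ?_, A, T, rfl, h6, h7, by exact_mod_cast h8⟩
    simp only [Lab, Finset.mem_filter, Finset.mem_product, Finset.mem_Icc, Finset.mem_Ico]
    exact ⟨⟨⟨h1, h2⟩, h3, by linarith⟩, h4, h5⟩
  · right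
    refine ⟨A, T, rfl, h6, h7, ?_⟩
    rw [Int.toNat_of_nonneg (by norm_num [E0])]
    exact h8

/-- The bad classes of one large trace. -/
theorem bad_n : ∃ K : ℕ, ∀ n : ℤ, 10 ^ 24 ≤ |n| →
    (Bad n).encard ≤ ((K * ((Lab n).card + 1) : ℕ) : ℕ∞) := by
  obtain ⟨c1, hc1⟩ := count_cls 256
  obtain ⟨c2, hc2⟩ := count_cls E0.toNat
  refine ⟨c1 + c2, fun n hn => ?_⟩
  refine (Set.encard_le_encard (bad_sub n hn)).trans ((Set.encard_union_le _ _).trans ?_)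
  have h1 : (⋃ k ∈ Lab n, CX (Xk n k.1 k.2) 256).encard ≤ (((Lab n).card * c1 : ℕ) : ℕ∞) := by
    refine ((Lab n).set_encard_biUnion_le _).trans ?_
    refine (Finset.sum_le_sum fun k _ => hc1 (Xk n k.1 k.2)).trans ?_
    rw [Finset.sum_const, nsmul_eq_mul]
    push_cast
    exact le_rfl
  have h2 : (CX (Cn n) E0.toNat).encard ≤ (c2 : ℕ∞) := hc2 (Cn n)
  refine (add_le_add h1 h2).trans ?_
  rw [← Nat.cast_add]
  apply Nat.cast_le.mpr
  nlinarith [Nat.zero_le c1, Nat.zero_le c2, Nat.zero_le ((Lab n).card * c2)]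

theorem sum_Lab {N : ℤ} (hN : 1 ≤ N) :
    ∑ n ∈ Finset.Icc (-N) N, (Lab n).card ≤ (Keys N).card := by
  classical
  have h1 : ∀ k ∈ Keys N, k.1 ∈ Finset.Icc (-N) N := by
    intro k hk
    simp only [Keys, Finset.mem_filter, Finset.mem_product] at hk
    exact hk.1.1
  rw [Finset.card_eq_sum_card_fiberwise h1]
  refine Finset.sum_le_sum fun n hn => ?_
  refine Finset.card_le_card_of_injOn (fun k => (n, k.1, k.2)) ?_ ?_
  · intro k hk
    have hk' : k ∈ Lab n := hk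
    simp only [Lab, Finset.mem_filter, Finset.mem_product, Finset.mem_Icc, Finset.mem_Ico] at hk'
    rw [Finset.mem_Icc] at hn
    have hnN : |n| ≤ N := abs_le.mpr hn
    simp only [Keys, Finset.coe_filter, Finset.mem_filter, Finset.mem_product, Finset.mem_Icc,
      Finset.mem_Ico, Set.mem_setOf_eq, and_true]
    obtain ⟨⟨⟨a1, a2⟩, a3, a4⟩, a5, a6⟩ := hk'
    exact ⟨⟨hn, ⟨a1, by linarith⟩, a3, by linarith⟩, a5, a6⟩
  · rintro ⟨a, b⟩ _ ⟨a', b'⟩ _ h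
    simp only [Prod.mk.injEq, true_and] at h
    simp [h]

/-- The bad classes of trace at most `N` in absolute value. -/
theorem bad_count : ∃ C : ℕ, ∀ N : ℕ, 1 ≤ N →
    Set.encard {S : Set M3 | ∃ A, IsCS A ∧ |A.trace| ≤ N ∧ S = Cls A ∧
      ∃ B, Gompf A B ∧ |B.trace| ≤ |A.trace| ∧ B ∉ Cls A} ≤ ((C * N ^ 2 : ℕ) : ℕ∞) := by
  classical
  obtain ⟨K, hK⟩ := bad_n
  choose c hc using finite_trace
  refine ⟨∑ n ∈ Finset.Icc (-(10 ^ 24 : ℤ)) (10 ^ 24), c n + 27 * K, fun N hN => ?_⟩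
  have hN' : (1 : ℤ) ≤ N := by exact_mod_cast hN
  have hsub : {S : Set M3 | ∃ A, IsCS A ∧ |A.trace| ≤ N ∧ S = Cls A ∧
      ∃ B, Gompf A B ∧ |B.trace| ≤ |A.trace| ∧ B ∉ Cls A} ⊆
      ⋃ n ∈ Finset.Icc (-(N : ℤ)) N, Bad n := by
    rintro S ⟨A, hA, h1, rfl, h2⟩
    simp only [Set.mem_iUnion]
    exact ⟨A.trace, Finset.mem_Icc.mpr (abs_le.mp h1), A, hA, rfl, rfl, h2⟩
  have h3 : ∀ n, (Bad n).encard ≤ (((if |n| < 10 ^ 24 then c n else 0) +
      K * ((Lab n).card + 1) : ℕ) : ℕ∞) := by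
    intro n
    by_cases h : |n| < 10 ^ 24
    · rw [if_pos h]
      refine le_trans (Set.encard_le_encard ?_) ((hc n).trans ?_)
      · rintro S ⟨A, hA, h1, h2, _⟩
        exact ⟨A, hA, h1, h2⟩
      · apply Nat.cast_le.mpr
        exact Nat.le_add_right _ _
    · rw [if_neg h, zero_add]
      exact hK n (by push Not at h; exact h)
  refine (Set.encard_le_encard hsub).trans ?_
  refine ((Finset.Icc (-(N : ℤ)) N).set_encard_biUnion_le _).trans ?_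
  refine (Finset.sum_le_sum fun n _ => h3 n).trans ?_
  rw [← Nat.cast_sum]
  apply Nat.cast_le.mpr
  rw [Finset.sum_add_distrib, ← Finset.mul_sum, Finset.sum_add_distrib]
  have h4 : ∑ n ∈ Finset.Icc (-(N : ℤ)) N, (if |n| < 10 ^ 24 then c n else 0) ≤
      ∑ n ∈ Finset.Icc (-(10 ^ 24 : ℤ)) (10 ^ 24), c n := by
    rw [← Finset.sum_filter]
    refine Finset.sum_le_sum_of_subset fun n hn => ?_
    rw [Finset.mem_filter] at hn
    exact Finset.mem_Icc.mpr (abs_le.mp hn.2.le)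
  have h5 : ∑ n ∈ Finset.Icc (-(N : ℤ)) N, (Lab n).card ≤ 24 * N ^ 2 := by
    refine (sum_Lab hN').trans ?_
    have := Keys_card hN'
    exact_mod_cast this
  have h6 : ∑ n ∈ Finset.Icc (-(N : ℤ)) N, 1 = 2 * N + 1 := by
    rw [Finset.sum_const, Int.card_Icc, smul_eq_mul, mul_one]
    omega
  rw [h6]
  have h7 : K * (∑ n ∈ Finset.Icc (-(N : ℤ)) N, (Lab n).card + (2 * N + 1)) ≤
      K * (27 * N ^ 2) := by
    apply Nat.mul_le_mul_left
    nlinarith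
  have h8 : 1 ≤ N ^ 2 := Nat.one_le_pow _ _ hN
  calc _ ≤ ∑ n ∈ Finset.Icc (-(10 ^ 24 : ℤ)) (10 ^ 24), c n + K * (27 * N ^ 2) :=
        add_le_add h4 h7
    _ ≤ (∑ n ∈ Finset.Icc (-(10 ^ 24 : ℤ)) (10 ^ 24), c n) * N ^ 2 + K * (27 * N ^ 2) :=
        Nat.add_le_add_right (Nat.le_mul_of_pos_right _ h8) _
    _ = _ := by ring

end Pool.Agent.Lib_helper72.GCC
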