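import Mathlib
import Pool.Agent.Lib_helper83.CS.Core

/-!
# GCC: similarity classes of integral matrices
-/

set_option autoImplicit false

namespace Pool.Agent.Lib_helper72.GCC

open Matrix Pool.Agent.Lib_helper83.CS

/-- The similarity class of an integral matrix. -/
def Cls (A : Matrix (Fin 3) (Fin 3) ℤ) : Set (Matrix (Fin 3) (Fin 3) ℤ) :=
  {B | ∃ P Q : Matrix (Fin 3) (Fin 3) ℤ, P * Q = 1 ∧ Q * P = 1 ∧ B = P * A * Q}

theorem Cls_refl (A : M3) : A ∈ Cls A := ⟨1, 1, by simp, by simp, by simp⟩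

theorem Cls_symm {A B : M3} (h : B ∈ Cls A) : A ∈ Cls B := by
  obtain ⟨P, Q, h1, h2, rfl⟩ := h
  refine ⟨Q, P, h2, h1, ?_⟩
  have : Q * (P * A * Q) * P = (Q * P) * A * (Q * P) := by simp only [Matrix.mul_assoc]
  rw [this, h2]; simp

theorem Cls_trans {A B C : M3} (h : B ∈ Cls A) (h' : C ∈ Cls B) : C ∈ Cls A := by
  obtain ⟨P, Q, h1, h2, rfl⟩ := h
  obtain ⟨P', Q', h3, h4, rfl⟩ := h'
  refine ⟨P' * P, Q * Q', ?_, ?_, by simp only [Matrix.mul_assoc]⟩
  · have : P' * P * (Q * Q') = P' * (P * Q) * Q' := by simp only [Matrix.mul_assoc]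
    rw [this, h1]; simpa using h3
  · have : Q * Q' * (P' * P) = Q * (Q' * P') * P := by simp only [Matrix.mul_assoc]
    rw [this, h4]; simpa using h2

theorem Cls_eq {A B : M3} (h : B ∈ Cls A) : Cls B = Cls A :=
  Set.Subset.antisymm (fun _ hC => Cls_trans h hC) (fun _ hC => Cls_trans (Cls_symm h) hC)

theorem Cls_eq_iff {A B : M3} : Cls B = Cls A ↔ B ∈ Cls A :=
  ⟨fun h => h ▸ Cls_refl B, Cls_eq⟩

/-- The image lattice of `T` modulo `q`. -/
def img (q : ℕ) (T : M3) : Set (Fin 3 → ZMod q) :=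
  {y | ∃ x : Fin 3 → ℤ, y = fun i => (((T *ᵥ x) i : ℤ) : ZMod q)}

theorem factor_of_img {q : ℕ} {T T' : M3} (hq : T.det ∣ (q : ℤ))
    (h : img q T' ⊆ img q T) : ∃ P : M3, T' = T * P := by
  have key : ∀ j, ∃ x : Fin 3 → ℤ, T *ᵥ x = fun i => T' i j := by
    intro j
    have h1 : (fun i => (((T' *ᵥ (Pi.single j 1)) i : ℤ) : ZMod q)) ∈ img q T :=
      h ⟨Pi.single j 1, rfl⟩
    obtain ⟨x, hx⟩ := h1
    obtain ⟨m, hm⟩ := hq
    have h2 : ∀ i, ∃ t : ℤ, T' i j - (T *ᵥ x) i = q * t := by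
      intro i
      have h3 := congrFun hx i
      simp only [Matrix.mulVec_single_one, Matrix.col_apply] at h3
      have h4 : (((T' i j - (T *ᵥ x) i : ℤ)) : ZMod q) = 0 := by
        push_cast
        rw [h3]; simp
      rw [ZMod.intCast_zmod_eq_zero_iff_dvd] at h4
      exact h4
    choose t ht using h2
    refine ⟨x + m • (T.adjugate *ᵥ t), ?_⟩
    rw [Matrix.mulVec_add, Matrix.mulVec_smul, Matrix.mulVec_mulVec, Matrix.mul_adjugate]
    funext i
    have := ht i
    simp only [Pi.add_apply, Pi.smul_apply, Matrix.smul_mulVec, Matrix.one_mulVec, smul_eq_mul]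
    rw [show m * (T.det * t i) = q * t i by rw [hm]; ring, ← this]
    ring
  choose x hx using key
  refine ⟨Matrix.of fun i j => x j i, ?_⟩
  ext i j
  rw [Matrix.mul_apply]
  have := congrFun (hx j) i
  simp only [Matrix.mulVec, dotProduct] at this
  rw [← this]
  rfl

theorem mul_left_cancel_det {T A B : M3} (hT : T.det ≠ 0) (h : T * A = T * B) : A = B := by
  have h1 : T.adjugate * (T * A) = T.adjugate * (T * B) := by rw [h]
  rw [← Matrix.mul_assoc, ← Matrix.mul_assoc, Matrix.adjugate_mul, Matrix.smul_mul,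
    Matrix.smul_mul, Matrix.one_mul, Matrix.one_mul] at h1
  ext i j
  have := congrFun (congrFun h1 i) j
  simp only [Matrix.smul_apply, smul_eq_mul] at this
  exact mul_left_cancel₀ hT this

/-- The number of classes of matrices which are intertwined with `X` by a matrix of bounded
determinant is bounded. -/
theorem count_cls (D : ℕ) : ∃ c : ℕ, ∀ X : M3,
    Set.encard {S : Set M3 | ∃ A T : M3, S = Cls A ∧ T * A = X * T ∧ T.det ≠ 0 ∧
      |T.det| ≤ D} ≤ c := by
  classical
  have : NeZero D.factorial := ⟨D.factorial_ne_zero⟩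
  refine ⟨Fintype.card (Set (Fin 3 → ZMod D.factorial)), fun X => ?_⟩
  set 𝒮 := {S : Set M3 | ∃ A T : M3, S = Cls A ∧ T * A = X * T ∧ T.det ≠ 0 ∧ |T.det| ≤ D} with h𝒮
  have hex : ∀ S : 𝒮, ∃ A T : M3, S.1 = Cls A ∧ T * A = X * T ∧ T.det ≠ 0 ∧ |T.det| ≤ D :=
    fun S => S.2
  choose A T hS hAT hT hD using hex
  have hdvd : ∀ S, (T S).det ∣ ((D.factorial : ℕ) : ℤ) := by
    intro S
    rw [← Int.natAbs_dvd, Int.natCast_dvd_natCast]
    apply Nat.dvd_factorial (Int.natAbs_pos.mpr (hT S))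
    have := hD S
    rw [Int.abs_eq_natAbs] at this
    exact_mod_cast this
  have hinj : Function.Injective (fun S : 𝒮 => img D.factorial (T S)) := by
    intro S S' h
    simp only at h
    obtain ⟨P, hP⟩ := factor_of_img (hdvd S) h.symm.subset
    obtain ⟨Q, hQ⟩ := factor_of_img (hdvd S') h.subset
    have h1 : P * Q = 1 := by
      apply mul_left_cancel_det (hT S)
      rw [← Matrix.mul_assoc, ← hP, ← hQ, Matrix.mul_one]
    have h2 : Q * P = 1 := by
      apply mul_left_cancel_det (hT S')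
      rw [← Matrix.mul_assoc, ← hQ, ← hP, Matrix.mul_one]
    have h3 : A S' = Q * A S * P := by
      apply mul_left_cancel_det (hT S')
      rw [hAT S']
      have : T S' * (Q * A S * P) = (T S' * Q) * A S * P := by simp only [Matrix.mul_assoc]
      rw [this, ← hQ, hAT S, Matrix.mul_assoc, ← hP]
    have h4 : A S' ∈ Cls (A S) := ⟨Q, P, h2, h1, h3⟩
    apply Subtype.ext
    rw [hS S, hS S']
    exact (Cls_eq h4).symm
  have h5 := ENat.card_le_card_of_injective hinj
  have h6 : ENat.card (Set (Fin 3 → ZMod D.factorial)) =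
      (Fintype.card (Set (Fin 3 → ZMod D.factorial)) : ℕ) := ENat.card_eq_coe_fintype_card
  rw [h6] at h5
  exact h5

end Pool.Agent.Lib_helper72.GCC
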