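import Pool.Agent.Lib_helper72.GCC.LabC
import Pool.Agent.Lib_helper34.GCEF.A5

/-!
# GCE: the final page
-/

set_option autoImplicit false

namespace Pool.Agent.Lib_helper72.GCC

open Matrix Pool.Agent.Lib_helper83.CS Pool.Agent.Lib_helper72.GC

theorem trace_Cls {A B : M3} (h : B ∈ Cls A) : B.trace = A.trace := by
  obtain ⟨P, Q, h1, h2, rfl⟩ := h
  rw [Matrix.trace_mul_comm, ← Matrix.mul_assoc, h2, Matrix.one_mul]

/-- The classes of trace `n`. -/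
def All (n : ℤ) : Set (Set M3) := {S | ∃ A, IsCS A ∧ A.trace = n ∧ S = Cls A}

/-- The exceptional classes. -/
def Exc (n : ℤ) : Set (Set M3) :=
  {S | ∃ A, IsCS A ∧ A.trace = n ∧ S = Cls A ∧
    ¬ (¬ Gompf A A0 ∧ ∀ B, Gompf A B → |B.trace| ≤ |n| → B ∈ Cls A)}

theorem Exc_sub {n : ℤ} (hn : 3 ≤ |n|) : Exc n ⊆ Bad n := by
  rintro S ⟨A, hA, h1, h2, h3⟩
  refine ⟨A, hA, h1, h2, ?_⟩
  by_contra hc
  push Not at hc
  apply h3
  refine ⟨fun h0 => ?_, hc⟩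
  have h4 : A0.trace = 2 := by unfold A0; rw [X_trace]; norm_num
  have h5 := hc A0 h0 (by rw [h4]; norm_num; linarith)
  have h6 := trace_Cls h5
  rw [h4, h1] at h6
  rw [← h6] at hn
  norm_num at hn

theorem every : ∃ c : ℝ, 0 < c ∧ ∀ ε : ℝ, 0 < ε → ∃ n0 : ℤ, ∀ n : ℤ, n0 ≤ |n| →
    (All n).Finite ∧ c * (n : ℝ) ^ 2 / Real.log |(n : ℝ)| ^ 4 ≤ ((All n).ncard : ℝ) ∧
    ((Exc n).ncard : ℝ) ≤ |(n : ℝ)| ^ (1 + ε) := by
  obtain ⟨c, n1, hc0, hc⟩ := Pool.Agent.Lib_helper34.GCE.many_n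
  refine ⟨c, hc0, fun ε hε => ?_⟩
  obtain ⟨n2, hn2⟩ := bad_every hε
  refine ⟨max (max n1 n2) 3, fun n hn => ?_⟩
  have h1 : n1 ≤ |n| := ((le_max_left _ _).trans (le_max_left _ _)).trans hn
  have h2 : n2 ≤ |n| := ((le_max_right _ _).trans (le_max_left _ _)).trans hn
  have h3 : 3 ≤ |n| := (le_max_right _ _).trans hn
  have hfin : (All n).Finite := by
    obtain ⟨k, hk⟩ := finite_trace n
    exact Set.finite_of_encard_le_coe hk
  refine ⟨hfin, ?_, ?_⟩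
  · have h4 := hc n h1
    have h5 : (All n).encard = ((All n).ncard : ℕ∞) := hfin.cast_ncard_eq.symm
    have h6 : ENNReal.ofReal (c * (n : ℝ) ^ 2 / Real.log |(n : ℝ)| ^ 4) ≤
        (((All n).ncard : ℕ∞) : ENNReal) := by
      rw [← h5]; exact h4
    have h7 : (((All n).ncard : ℕ∞) : ENNReal) = ENNReal.ofReal ((All n).ncard : ℝ) := by
      rw [ENNReal.ofReal_natCast]; simp
    rw [h7] at h6
    exact (ENNReal.ofReal_le_ofReal_iff (Nat.cast_nonneg _)).mp h6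
  · obtain ⟨h4, h5⟩ := hn2 n h2
    refine le_trans ?_ h5
    exact_mod_cast Set.ncard_le_ncard (Exc_sub h3) h4

end Pool.Agent.Lib_helper72.GCC
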