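import Pool.Agent.Lib_helper72.GCC.Bad
import Pool.Agent.Lib_helper61.FG.DivB

/-!
# GCC: the number of labels of one trace
-/

set_option autoImplicit false

namespace Pool.Agent.Lib_helper72.GCC

open Matrix Pool.Agent.Lib_helper83.CS Pool.Agent.Lib_helper72.GC

theorem F_abs_le {n c : ℤ} (hn : 1 ≤ |n|) (h0 : 0 ≤ c) (h1 : c ≤ 3 * |n|) :
    |F n c 1| ≤ 50 * |n| ^ 3 := by
  have h2 : |F n c 1| ≤ c ^ 3 + |n| * c ^ 2 + (|n| + 1) * c + 1 := by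
    unfold F
    have a1 := le_abs_self n
    have a2 := neg_abs_le n
    have c2 : 0 ≤ c ^ 2 := by positivity
    have c3 : 0 ≤ c ^ 3 := by positivity
    have e1 : -(|n| * c ^ 2) ≤ n * c ^ 2 ∧ n * c ^ 2 ≤ |n| * c ^ 2 := by
      constructor <;> nlinarith
    have e2 : -(|n| * c) ≤ n * c ∧ n * c ≤ |n| * c := by
      constructor <;> nlinarith
    rw [abs_le]
    constructor <;> nlinarith [e1.1, e1.2, e2.1, e2.2]
  have h3 : c ^ 2 ≤ (3 * |n|) ^ 2 := pow_le_pow_left₀ h0 h1 2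
  have h4 : c ^ 3 ≤ (3 * |n|) ^ 3 := pow_le_pow_left₀ h0 h1 3
  have h5 : |n| ^ 2 ≤ |n| ^ 3 := pow_le_pow_right₀ hn (by norm_num)
  have h6 : |n| ≤ |n| ^ 3 := by
    calc |n| = |n| ^ 1 := (pow_one _).symm
      _ ≤ |n| ^ 3 := pow_le_pow_right₀ hn (by norm_num)
  have h7 : (1 : ℤ) ≤ |n| ^ 3 := hn.trans h6
  calc |F n c 1| ≤ c ^ 3 + |n| * c ^ 2 + (|n| + 1) * c + 1 := h2
    _ ≤ (3 * |n|) ^ 3 + |n| * (3 * |n|) ^ 2 + (|n| + 1) * (3 * |n|) + 1 := by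
      have := mul_le_mul_of_nonneg_left h3 (abs_nonneg n)
      have := mul_le_mul_of_nonneg_left h1 (show (0 : ℤ) ≤ |n| + 1 by positivity)
      linarith
    _ = 36 * |n| ^ 3 + 3 * |n| ^ 2 + 3 * |n| + 1 := by ring
    _ ≤ 50 * |n| ^ 3 := by linarith

theorem Lab_card {ε : ℝ} (hε : 0 < ε) : ∃ C : ℝ, 0 < C ∧ ∀ n : ℤ, 1 ≤ |n| →
    ((Lab n).card : ℝ) ≤ C * |(n : ℝ)| ^ (1 + ε) := by
  classical
  obtain ⟨C, hC0, hC⟩ := Pool.Agent.FG61.divisor_bound (show 0 < ε / 3 by positivity)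
  refine ⟨3 * (C * (50 : ℝ) ^ (ε / 3)), by positivity, fun n hn => ?_⟩
  have hnR : (1 : ℝ) ≤ |(n : ℝ)| := by exact_mod_cast hn
  have h1 : Lab n ⊆ (Finset.Ico 0 (3 * |n|)).biUnion fun c =>
      ((F n c 1).natAbs.divisors).image fun d : ℕ => ((d : ℤ), c) := by
    intro k hk
    simp only [Lab, Finset.mem_filter, Finset.mem_product, Finset.mem_Icc, Finset.mem_Ico] at hk
    obtain ⟨⟨⟨a1, a2⟩, a3, a4⟩, a5, a6⟩ := hk
    simp only [Finset.mem_biUnion, Finset.mem_image, Finset.mem_Ico, Nat.mem_divisors]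
    refine ⟨k.2, ⟨a3, a4⟩, k.1.natAbs, ⟨Int.natAbs_dvd_natAbs.mpr a6, ?_⟩, ?_⟩
    · exact Int.natAbs_ne_zero.mpr (F_ne_zero n k.2 1 isCoprime_one_right)
    · rw [Int.natAbs_of_nonneg (by linarith)]
  have h2 : ((Lab n).card : ℝ) ≤ ∑ c ∈ Finset.Ico 0 (3 * |n|),
      (((F n c 1).natAbs.divisors).card : ℝ) := by
    have h3 : (Lab n).card ≤ ∑ c ∈ Finset.Ico 0 (3 * |n|), ((F n c 1).natAbs.divisors).card :=
      (Finset.card_le_card h1).trans (Finset.card_biUnion_le.trans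
        (Finset.sum_le_sum fun c _ => Finset.card_image_le))
    exact_mod_cast h3
  refine h2.trans ((Finset.sum_le_sum (g := fun _ => C * (50 : ℝ) ^ (ε / 3) * |(n : ℝ)| ^ ε)
    fun c hc => ?_).trans ?_)
  · rw [Finset.mem_Ico] at hc
    have h3 : 0 < (F n c 1).natAbs :=
      Int.natAbs_pos.mpr (F_ne_zero n c 1 isCoprime_one_right)
    refine (hC _ h3).trans ?_
    have h4 : (((F n c 1).natAbs : ℕ) : ℝ) ≤ 50 * |(n : ℝ)| ^ 3 := by
      have h5 := F_abs_le hn hc.1 hc.2.le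
      rw [Int.abs_eq_natAbs] at h5
      have h6 : ((((F n c 1).natAbs : ℕ) : ℤ) : ℝ) ≤ ((50 * |n| ^ 3 : ℤ) : ℝ) :=
        Int.cast_le.mpr h5
      rw [Int.cast_natCast] at h6
      refine h6.trans (le_of_eq ?_)
      push_cast
      rfl
    have h7 : (((F n c 1).natAbs : ℕ) : ℝ) ^ (ε / 3) ≤ (50 * |(n : ℝ)| ^ 3) ^ (ε / 3) :=
      Real.rpow_le_rpow (by positivity) h4 (by positivity)
    have h8 : (50 * |(n : ℝ)| ^ 3) ^ (ε / 3) = (50 : ℝ) ^ (ε / 3) * |(n : ℝ)| ^ ε := by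
      rw [Real.mul_rpow (by norm_num) (by positivity), ← Real.rpow_natCast,
        ← Real.rpow_mul (abs_nonneg _)]
      congr 2
      push_cast
      ring
    rw [h8] at h7
    calc C * (((F n c 1).natAbs : ℕ) : ℝ) ^ (ε / 3)
        ≤ C * ((50 : ℝ) ^ (ε / 3) * |(n : ℝ)| ^ ε) := mul_le_mul_of_nonneg_left h7 hC0.le
      _ = _ := by ring
  · rw [Finset.sum_const, Int.card_Ico, nsmul_eq_mul]
    have h9 : (((3 * |n| - 0).toNat : ℕ) : ℝ) = 3 * |(n : ℝ)| := by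
      have : (((3 * |n| - 0).toNat : ℕ) : ℤ) = 3 * |n| := by
        rw [Int.toNat_of_nonneg (by linarith)]; ring
      have h10 : ((((3 * |n| - 0).toNat : ℕ) : ℤ) : ℝ) = ((3 * |n| : ℤ) : ℝ) := by rw [this]
      rw [Int.cast_natCast] at h10
      rw [h10]
      push_cast
      rfl
    rw [h9, Real.rpow_add (by linarith), Real.rpow_one]
    apply le_of_eq
    ring

/-- The bad classes of trace `n`. -/
theorem bad_every {ε : ℝ} (hε : 0 < ε) : ∃ n0 : ℤ, ∀ n : ℤ, n0 ≤ |n| →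
    (Bad n).Finite ∧ ((Bad n).ncard : ℝ) ≤ |(n : ℝ)| ^ (1 + ε) := by
  obtain ⟨K, hK⟩ := bad_n
  obtain ⟨C, hC0, hC⟩ := Lab_card (show 0 < ε / 2 by positivity)
  obtain ⟨x0, hx0⟩ := (Filter.tendsto_atTop.mp (tendsto_rpow_atTop (show 0 < ε / 2 by positivity))
    ((K : ℝ) * (C + 1))).exists_forall_of_atTop
  refine ⟨max (10 ^ 24) ⌈x0⌉, fun n hn => ?_⟩
  have h24 : (10 : ℤ) ^ 24 ≤ |n| := (le_max_left _ _).trans hn
  have hx : x0 ≤ |(n : ℝ)| := by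
    have h1 : (⌈x0⌉ : ℤ) ≤ |n| := (le_max_right _ _).trans hn
    have h2 : ((⌈x0⌉ : ℤ) : ℝ) ≤ ((|n| : ℤ) : ℝ) := by exact_mod_cast h1
    push_cast at h2
    exact (Int.le_ceil x0).trans h2
  have h1 : (1 : ℤ) ≤ |n| := le_trans (by norm_num) h24
  have h1R : (1 : ℝ) ≤ |(n : ℝ)| := by exact_mod_cast h1
  have hb := hK n h24
  have hfin : (Bad n).Finite := Set.finite_of_encard_le_coe hb
  refine ⟨hfin, ?_⟩
  rw [← hfin.cast_ncard_eq] at hb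
  have hb' : (Bad n).ncard ≤ K * ((Lab n).card + 1) := by exact_mod_cast hb
  have hb2 : ((Bad n).ncard : ℝ) ≤ K * ((Lab n).card + 1) := by exact_mod_cast hb'
  have h2 := hC n h1
  have h3 := hx0 _ hx
  have h4 : (1 : ℝ) ≤ |(n : ℝ)| ^ (1 + ε / 2) := Real.one_le_rpow h1R (by positivity)
  calc ((Bad n).ncard : ℝ) ≤ K * ((Lab n).card + 1) := hb2
    _ ≤ K * (C * |(n : ℝ)| ^ (1 + ε / 2) + |(n : ℝ)| ^ (1 + ε / 2)) := by
      apply mul_le_mul_of_nonneg_left _ (Nat.cast_nonneg K)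
      linarith
    _ = (K * (C + 1)) * |(n : ℝ)| ^ (1 + ε / 2) := by ring
    _ ≤ |(n : ℝ)| ^ (ε / 2) * |(n : ℝ)| ^ (1 + ε / 2) :=
      mul_le_mul_of_nonneg_right h3 (by positivity)
    _ = |(n : ℝ)| ^ (1 + ε) := by
      rw [← Real.rpow_add (by linarith)]
      congr 1
      ring

end Pool.Agent.Lib_helper72.GCC
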