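import Pool.Agent.Lib_helper72.GCC.Cls
import Pool.Agent.Lib_helper83.CS.Intrinsic

/-!
# GCC: structure of a class with a small primitive vector
-/

set_option autoImplicit false

namespace Pool.Agent.Lib_helper72.GCC

open Matrix Pool.Agent.Lib_helper83.CS

/-- The matrix with columns `v, Av, A^2 v`. -/
def Kc (A : M3) (v : Fin 3 → ℤ) : M3 :=
  Matrix.of fun i j => ![v i, (A *ᵥ v) i, (A *ᵥ (A *ᵥ v)) i] j

/-- The standard form of the label `(n, d, c)`. -/
def Xk (n d c : ℤ) : M3 :=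
  !![0, -(c ^ 2 - n * c + n - 1), -(F n c 1 / d); 1, n - c, 0; 0, d, c]

theorem Kc_mul (A R : M3) (B : M3) (h : A * R = R * B) (v : Fin 3 → ℤ) :
    Kc A (R *ᵥ v) = R * Kc B v := by
  have h1 : ∀ w : Fin 3 → ℤ, A *ᵥ (R *ᵥ w) = R *ᵥ (B *ᵥ w) := by
    intro w
    rw [Matrix.mulVec_mulVec, h, ← Matrix.mulVec_mulVec]
  ext i j
  rw [Matrix.mul_apply]
  fin_cases j
  · simp [Kc, Matrix.mulVec, dotProduct]
  · show (A *ᵥ (R *ᵥ v)) i = _
    rw [h1]
    simp [Kc, Matrix.mulVec, dotProduct]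
  · show (A *ᵥ (A *ᵥ (R *ᵥ v))) i = _
    rw [h1, h1]
    simp [Kc, Matrix.mulVec, dotProduct]

theorem gcd_data {p q : ℤ} (h : ¬ (p = 0 ∧ q = 0)) :
    ∃ r a b x y : ℤ, 0 < r ∧ p = r * a ∧ q = r * b ∧ a * x + b * y = 1 := by
  have hg0 : Int.gcd p q ≠ 0 := fun h1 => h (Int.gcd_eq_zero_iff.mp h1)
  have hg : ((Int.gcd p q : ℕ) : ℤ) ≠ 0 := by exact_mod_cast hg0
  have hgpos : (0 : ℤ) < ((Int.gcd p q : ℕ) : ℤ) := by
    exact_mod_cast Nat.pos_of_ne_zero hg0
  obtain ⟨a, ha⟩ := Int.gcd_dvd_left p q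
  obtain ⟨b, hb⟩ := Int.gcd_dvd_right p q
  have hxy := Int.gcd_eq_gcd_ab p q
  refine ⟨((Int.gcd p q : ℕ) : ℤ), a, b, Int.gcdA p q, Int.gcdB p q, hgpos, ha, hb, ?_⟩
  apply mul_left_cancel₀ hg
  rw [mul_one]
  generalize Int.gcdA p q = x at *
  generalize Int.gcdB p q = y at *
  generalize ((Int.gcd p q : ℕ) : ℤ) = r at *
  rw [ha, hb] at hxy
  linarith

/-- A primitive vector is the first column of a matrix of determinant one. -/
theorem complete {v lam : Fin 3 → ℤ} (hv : lam 0 * v 0 + lam 1 * v 1 + lam 2 * v 2 = 1) :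
    ∃ P : M3, P.det = 1 ∧ ∀ i, P i 0 = v i := by
  by_cases h0 : v 1 = 0 ∧ v 2 = 0
  · refine ⟨!![v 0, 0, 0; v 1, lam 0, 0; v 2, 0, 1], ?_, ?_⟩
    · rw [Matrix.det_fin_three]
      simp
      rw [h0.1, h0.2] at hv
      linarith
    · intro i; fin_cases i <;> rfl
  · obtain ⟨g, a, b, x, y, hg, ha, hb, h1⟩ := gcd_data h0
    have h2 : lam 0 * v 0 + (lam 1 * a + lam 2 * b) * g = 1 := by
      rw [ha, hb] at hv
      linarith
    refine ⟨!![v 0, -(lam 1 * a + lam 2 * b), 0; v 1, lam 0 * a, -y; v 2, lam 0 * b, x], ?_, ?_⟩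
    · rw [Matrix.det_fin_three]
      simp
      rw [ha, hb]
      linear_combination h2 + (lam 0 * v 0 + (lam 1 * a + lam 2 * b) * g) * h1
    · intro i; fin_cases i <;> rfl

theorem adj_left {P : M3} (h : P.det = 1) : P.adjugate * P = 1 := by
  rw [Matrix.adjugate_mul, h, one_smul]

theorem adj_right {P : M3} (h : P.det = 1) : P * P.adjugate = 1 := by
  rw [Matrix.mul_adjugate, h, one_smul]

/-- The Hermite form of a matrix with respect to a primitive vector. -/
theorem normal1 (A : M3) {v lam : Fin 3 → ℤ} (hv : lam 0 * v 0 + lam 1 * v 1 + lam 2 * v 2 = 1)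
    (hK : (Kc A v).det ≠ 0) :
    ∃ (R : M3) (a b x r g y s z : ℤ), (R.det = 1 ∨ R.det = -1) ∧ (∀ i, R i 0 = v i) ∧ 0 < r ∧
      0 < s ∧ A * R = R * !![a, b, x; r, g, y; 0, s, z] := by
  obtain ⟨P, hP, hPv⟩ := complete hv
  obtain ⟨A1, hA1⟩ : ∃ A1, A1 = P.adjugate * A * P := ⟨_, rfl⟩
  have e1 : A * P = P * A1 := by
    rw [hA1, ← Matrix.mul_assoc, ← Matrix.mul_assoc, adj_right hP, Matrix.one_mul]
  have hPv' : P *ᵥ (Pi.single 0 1) = v := by
    funext i
    rw [Matrix.mulVec_single_one, Matrix.col_apply, hPv]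
  -- the content
  have hg : ¬ (A1 1 0 = 0 ∧ A1 2 0 = 0) := by
    intro h1
    apply hK
    rw [← hPv', Kc_mul A P A1 e1, Matrix.det_mul, hP, one_mul, Matrix.det_fin_three]
    simp [Kc, h1.1, h1.2]
  obtain ⟨r, a', b', x', y', hgpos, ha, hb, h1⟩ := gcd_data hg
  set Q : M3 := !![1, 0, 0; 0, a', -y'; 0, b', x'] with hQ
  have hQd : Q.det = 1 := by
    rw [hQ, Matrix.det_fin_three]
    simp
    linarith
  have hQa : Q.adjugate = !![1, 0, 0; 0, x', y'; 0, -b', a'] := by
    have h2 : Q * !![1, 0, 0; 0, x', y'; 0, -b', a'] = 1 := by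
      rw [hQ]
      ext i j
      fin_cases i <;> fin_cases j <;> simp [Matrix.mul_apply, Fin.sum_univ_three] <;>
        linarith
    calc Q.adjugate = Q.adjugate * (Q * !![1, 0, 0; 0, x', y'; 0, -b', a']) := by
            rw [h2, Matrix.mul_one]
      _ = _ := by rw [← Matrix.mul_assoc, adj_left hQd, Matrix.one_mul]
  obtain ⟨A2, hA2⟩ : ∃ A2, A2 = Q.adjugate * A1 * Q := ⟨_, rfl⟩
  have e2 : A1 * Q = Q * A2 := by
    rw [hA2, ← Matrix.mul_assoc, ← Matrix.mul_assoc, adj_right hQd, Matrix.one_mul]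
  have c10 : A2 1 0 = r := by
    rw [hA2, hQa, hQ]
    simp [Matrix.mul_apply, Matrix.vecMul, dotProduct, Fin.sum_univ_three]
    rw [ha, hb]
    linear_combination r * h1
  have c20 : A2 2 0 = 0 := by
    rw [hA2, hQa, hQ]
    simp [Matrix.mul_apply, Matrix.vecMul, dotProduct, Fin.sum_univ_three]
    rw [ha, hb]
    ring
  have e3 : A * (P * Q) = P * Q * A2 := by
    rw [← Matrix.mul_assoc, e1, Matrix.mul_assoc, e2, ← Matrix.mul_assoc]
  have hdet : (P * Q).det = 1 := by rw [Matrix.det_mul, hP, hQd]; norm_num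
  have hcol : ∀ i, (P * Q) i 0 = v i := by
    intro i
    rw [Matrix.mul_apply, Fin.sum_univ_three, hQ]
    simp [hPv]
  have hcol' : (P * Q) *ᵥ (Pi.single 0 1) = v := by
    funext i
    rw [Matrix.mulVec_single_one, Matrix.col_apply, hcol]
  have hs : A2 2 1 ≠ 0 := by
    intro h
    apply hK
    rw [← hcol', Kc_mul A (P * Q) A2 e3, Matrix.det_mul, hdet, one_mul, Matrix.det_fin_three]
    simp [Kc, Matrix.mulVec, dotProduct, Fin.sum_univ_three, c20, h]
  rcases lt_or_gt_of_ne hs with h | h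
  · refine ⟨P * Q * !![1, 0, 0; 0, 1, 0; 0, 0, -1], A2 0 0, A2 0 1, -A2 0 2, r, A2 1 1, -A2 1 2,
      -A2 2 1, A2 2 2, ?_, ?_, hgpos, by linarith, ?_⟩
    · right
      rw [Matrix.det_mul, hdet, Matrix.det_fin_three]; simp
    · intro i
      rw [Matrix.mul_apply, Fin.sum_univ_three]
      simp [hcol]
    · have e4 : A2 * !![1, 0, 0; 0, 1, 0; 0, 0, -1] = !![1, 0, 0; 0, 1, 0; 0, 0, -1] *
          !![A2 0 0, A2 0 1, -A2 0 2; r, A2 1 1, -A2 1 2; 0, -A2 2 1, A2 2 2] := by
        ext i j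
        fin_cases i <;> fin_cases j <;> simp [Matrix.mul_apply, Fin.sum_univ_three, c10, c20]
      rw [← Matrix.mul_assoc, e3, Matrix.mul_assoc, e4]
      simp only [Matrix.mul_assoc]
  · refine ⟨P * Q, A2 0 0, A2 0 1, A2 0 2, r, A2 1 1, A2 1 2, A2 2 1, A2 2 2, Or.inl hdet, hcol,
      hgpos, h, ?_⟩
    rw [e3]
    congr 1
    ext i j
    fin_cases i <;> fin_cases j <;> simp [c10, c20]

theorem Cls_tr {A B : M3} {R : M3} (hR : R.det = 1 ∨ R.det = -1) (h : A * R = R * B) :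
    A.trace = B.trace ∧ A.det = B.det ∧ (A - 1).det = (B - 1).det := by
  have hR0 : R.det ≠ 0 := by rcases hR with h | h <;> rw [h] <;> norm_num
  have hR1 : R.det * R.det = 1 := by rcases hR with h | h <;> rw [h] <;> norm_num
  refine ⟨?_, ?_, ?_⟩
  · have h1 : R.adjugate * (A * R) = R.det • B := by
      rw [h, ← Matrix.mul_assoc, Matrix.adjugate_mul, Matrix.smul_mul, Matrix.one_mul]
    have h2 : (R.adjugate * (A * R)).trace = R.det * A.trace := by
      rw [Matrix.trace_mul_comm, Matrix.mul_assoc, Matrix.mul_adjugate, Matrix.mul_smul,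
        Matrix.mul_one, Matrix.trace_smul, smul_eq_mul]
    rw [h1, Matrix.trace_smul, smul_eq_mul] at h2
    exact (mul_left_cancel₀ hR0 h2).symm
  · have h1 := congrArg Matrix.det h
    rw [Matrix.det_mul, Matrix.det_mul, mul_comm] at h1
    exact mul_left_cancel₀ hR0 h1
  · have h0 : (A - 1) * R = R * (B - 1) := by
      rw [Matrix.sub_mul, Matrix.mul_sub, h]; simp
    have h1 := congrArg Matrix.det h0
    rw [Matrix.det_mul, Matrix.det_mul, mul_comm] at h1
    exact mul_left_cancel₀ hR0 h1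

theorem struct {A : M3} (hA : IsCS A) {v lam : Fin 3 → ℤ}
    (hv : lam 0 * v 0 + lam 1 * v 1 + lam 2 * v 2 = 1) (hK : (Kc A v).det ≠ 0) :
    ∃ (r s c : ℤ) (T : M3) (m : ℤ) (u : Fin 3 → ℤ), 0 < r ∧ 0 < s ∧ 0 ≤ c ∧ c < s ∧
      s ∣ F A.trace c 1 ∧ |T.det| = r ^ 2 ∧ A * T = T * Xk A.trace s c ∧
      |(Kc A v).det| = r ^ 2 * s ∧ ∀ i, (A *ᵥ v) i = m * v i + r * u i := by
  obtain ⟨R, a, b, x, r, g, y, s, z, hR, hRv, hr, hs, hAR⟩ := normal1 A hv hK
  set B : M3 := !![a, b, x; r, g, y; 0, s, z] with hB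
  obtain ⟨t1, t2, t3⟩ := Cls_tr hR hAR
  rw [hA.1] at t2
  rw [hA.2] at t3
  have E1 : A.trace = a + g + z := by
    rw [t1, hB, Matrix.trace_fin_three]; simp
  have E3 : a * (g * z - y * s) - b * (r * z) + x * (r * s) = 1 := by
    rw [t2, hB, Matrix.det_fin_three]; simp; ring
  have E2 : a * g - b * r + a * z + g * z - y * s = A.trace - 1 := by
    have h1 := t3
    rw [hB, Matrix.det_fin_three] at h1
    simp at h1
    rw [E1]
    linarith
  set l : ℤ := -(z / s) with hl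
  set c : ℤ := z + l * s with hc
  have hcm : c = z % s := by
    rw [hc, hl, Int.emod_def]; ring
  have hc0 : 0 ≤ c := by rw [hcm]; exact Int.emod_nonneg _ hs.ne'
  have hcs : c < s := by rw [hcm]; exact Int.emod_lt_of_pos _ hs
  set k : ℤ := l * c - (a + g) * l - y with hk
  have hF : F A.trace c 1 = s * (k * c - (r * b - a * g) * l - (r * x - y * a)) := by
    unfold F
    rw [E1] at E2 ⊢
    have hn : a + g + z = a + g + (c - l * s) := by rw [hc]; ring
    have hz : z = c - l * s := by rw [hc]; ring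
    rw [hk]
    rw [hz] at E2 E3 ⊢
    linear_combination (-c) * E2 + E3
  have hdiv : F A.trace c 1 / s = k * c - (r * b - a * g) * l - (r * x - y * a) := by
    rw [hF, Int.mul_ediv_cancel_left _ hs.ne']
  set T' : M3 := !![1, a, 0; 0, r, 0; 0, 0, r] with hT'
  set U : M3 := !![1, 0, k; 0, 1, l; 0, 0, 1] with hU
  have e1 : B * (T' * U) = T' * U * Xk A.trace s c := by
    have hX : B * T' = T' * !![0, r * b - a * g, r * x - y * a; 1, a + g, y; 0, s, z] := by
      rw [hB, hT']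
      ext i j
      fin_cases i <;> fin_cases j <;> simp [Matrix.mul_apply, Fin.sum_univ_three] <;> ring
    have hX2 : !![0, r * b - a * g, r * x - y * a; 1, a + g, y; 0, s, z] * U =
        U * Xk A.trace s c := by
      rw [hU, Xk, hdiv]
      have hz : z = c - l * s := by rw [hc]; ring
      have q1 : r * b - a * g = -(c ^ 2 - A.trace * c + A.trace - 1) + k * s := by
        rw [hk]
        rw [E1] at E2 ⊢
        rw [hz] at E2 ⊢
        linear_combination (-1 : ℤ) * E2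
      ext i j
      fin_cases i <;> fin_cases j <;> simp [Matrix.mul_apply, Fin.sum_univ_three]
      · linarith
      · ring
      · linarith
      · rw [hk]; ring
      · rw [hc]; ring
    calc B * (T' * U) = B * T' * U := by rw [Matrix.mul_assoc]
      _ = T' * (!![0, r * b - a * g, r * x - y * a; 1, a + g, y; 0, s, z] * U) := by
        rw [hX, Matrix.mul_assoc]
      _ = _ := by rw [hX2, Matrix.mul_assoc]
  refine ⟨r, s, c, R * (T' * U), a, fun i => R i 1, hr, hs, hc0, hcs, ⟨_, hF⟩, ?_, ?_, ?_, ?_⟩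
  · have h1 : (T' * U).det = r ^ 2 := by
      rw [Matrix.det_mul, hT', hU, Matrix.det_fin_three, Matrix.det_fin_three]
      simp
      ring
    rw [Matrix.det_mul, h1, abs_mul]
    have h2 : |R.det| = 1 := by rcases hR with h | h <;> rw [h] <;> norm_num
    rw [h2, one_mul, abs_of_nonneg (by positivity)]
  · rw [← Matrix.mul_assoc, hAR, Matrix.mul_assoc, e1, ← Matrix.mul_assoc]
  · have h1 : R *ᵥ (Pi.single 0 1) = v := by
      funext i
      rw [Matrix.mulVec_single_one, Matrix.col_apply, hRv]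
    rw [← h1, Kc_mul A R B hAR, Matrix.det_mul, abs_mul]
    have h2 : |R.det| = 1 := by rcases hR with h | h <;> rw [h] <;> norm_num
    have h3 : (Kc B (Pi.single 0 1)).det = r ^ 2 * s := by
      rw [Matrix.det_fin_three, hB]
      simp [Kc, Matrix.mulVec, dotProduct, Fin.sum_univ_three]
      ring
    rw [h2, one_mul, h3, abs_of_pos (by positivity)]
  · intro i
    have h1 : R *ᵥ (Pi.single 0 1) = v := by
      funext i
      rw [Matrix.mulVec_single_one, Matrix.col_apply, hRv]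
    rw [← h1, Matrix.mulVec_mulVec, hAR]
    rw [Matrix.mulVec_single_one, Matrix.mulVec_single_one, Matrix.col_apply, Matrix.col_apply,
      Matrix.mul_apply, Fin.sum_univ_three, hB]
    simp
    ring

end Pool.Agent.Lib_helper72.GCC
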